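import Pool.Agent.Lib.MP_8cdcda_al.Defs

/-!
Tables for the 24 cosets of the parabolic subgroup generated by `1,2,3` in the finite Weyl group
of type F4, and the finite checks on them.
-/

namespace Pool.Agent.Lib.MP_8cdcda_al

def wdT : List (List (Fin 5)) :=
  [[],
   [0],
   [1, 0],
   [2, 1, 0],
   [1, 2, 1, 0],
   [3, 2, 1, 0],
   [0, 1, 2, 1, 0],
   [3, 1, 2, 1, 0],
   [3, 0, 1, 2, 1, 0],
   [2, 3, 1, 2, 1, 0],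
   [2, 3, 0, 1, 2, 1, 0],
   [1, 2, 3, 1, 2, 1, 0],
   [1, 2, 3, 0, 1, 2, 1, 0],
   [0, 1, 2, 3, 1, 2, 1, 0],
   [0, 1, 2, 3, 0, 1, 2, 1, 0],
   [2, 1, 2, 3, 0, 1, 2, 1, 0],
   [2, 0, 1, 2, 3, 0, 1, 2, 1, 0],
   [3, 2, 1, 2, 3, 0, 1, 2, 1, 0],
   [1, 2, 0, 1, 2, 3, 0, 1, 2, 1, 0],
   [3, 2, 0, 1, 2, 3, 0, 1, 2, 1, 0],
   [3, 1, 2, 0, 1, 2, 3, 0, 1, 2, 1, 0],
   [2, 3, 1, 2, 0, 1, 2, 3, 0, 1, 2, 1, 0],
   [1, 2, 3, 1, 2, 0, 1, 2, 3, 0, 1, 2, 1, 0],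
   [0, 1, 2, 3, 1, 2, 0, 1, 2, 3, 0, 1, 2, 1, 0]]

def parT : List (Fin 5 × Fin 24) :=
  [(0, 0), (0, 0), (1, 1), (2, 2), (1, 3), (3, 3), (0, 4), (3, 4), (3, 6), (2, 7), (2, 8), (1, 9), (1, 10), (0, 11), (0, 12), (2, 12), (2, 14), (3, 15), (1, 16), (3, 16), (3, 18), (2, 20), (1, 21), (0, 22)]

def nxtT : List (List (Fin 24)) :=
  [[1, 0, 2, 3, 6, 5, 4, 8, 7, 10, 9, 13, 14, 11, 12, 16, 15, 19, 18, 17, 20, 21, 23, 22],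
   [0, 2, 1, 4, 3, 7, 6, 5, 8, 11, 12, 9, 10, 14, 13, 15, 18, 17, 16, 20, 19, 22, 21, 23],
   [0, 1, 3, 2, 4, 5, 6, 9, 10, 7, 8, 11, 15, 13, 16, 12, 14, 17, 18, 19, 21, 20, 22, 23],
   [0, 1, 2, 5, 7, 3, 8, 4, 6, 9, 10, 11, 12, 13, 14, 17, 19, 15, 20, 16, 18, 21, 22, 23],
   [0, 1, 2, 3, 4, 5, 6, 7, 8, 9, 10, 11, 12, 13, 14, 15, 16, 17, 18, 19, 20, 21, 22, 23]]

def kindT : List (List ℕ) :=
  [[0, 1, 2, 2, 0, 2, 1, 0, 1, 0, 1, 0, 0, 1, 1, 0, 1, 0, 2, 1, 2, 2, 0, 1],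
   [2, 0, 1, 0, 1, 0, 2, 1, 2, 0, 0, 1, 1, 0, 1, 2, 0, 2, 1, 0, 1, 0, 1, 2],
   [2, 2, 0, 1, 2, 2, 2, 0, 0, 1, 1, 2, 0, 2, 0, 1, 1, 2, 2, 2, 0, 1, 2, 2],
   [2, 2, 2, 0, 0, 1, 0, 1, 1, 2, 2, 2, 2, 2, 2, 0, 0, 1, 0, 1, 1, 2, 2, 2],
   [2, 2, 2, 2, 2, 2, 2, 2, 2, 2, 2, 2, 2, 2, 2, 2, 2, 2, 2, 2, 2, 2, 2, 2]]

def fixT : List (List (Fin 5)) :=
  [[0, 0, 1, 1, 0, 1, 0, 0, 0, 0, 0, 0, 0, 0, 0, 0, 0, 0, 1, 0, 1, 1, 0, 0],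
   [1, 0, 0, 0, 0, 0, 1, 0, 1, 0, 0, 0, 0, 0, 0, 1, 0, 1, 0, 0, 0, 0, 0, 1],
   [2, 2, 0, 0, 2, 3, 2, 0, 0, 0, 0, 3, 0, 3, 0, 0, 0, 2, 3, 2, 0, 0, 2, 2],
   [3, 3, 3, 0, 0, 0, 0, 0, 0, 2, 2, 2, 2, 2, 2, 0, 0, 0, 0, 0, 0, 3, 3, 3],
   [0, 0, 0, 0, 0, 0, 0, 0, 0, 0, 0, 0, 0, 0, 0, 0, 0, 0, 0, 0, 0, 0, 0, 0]]

def certT : List (List (List ℕ)) :=
  [[[],
    [],
    [0],
    [0, 1],
    [],
    [0, 1, 2],
    [],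
    [0],
    [],
    [0, 1],
    [],
    [],
    [],
    [],
    [],
    [0],
    [],
    [0, 1],
    [2, 0, 2, 1, 5, 6, 8, 9],
    [],
    [0, 3, 1, 3, 2, 6, 7, 9, 10],
    [0, 1, 4, 2, 4, 3, 7, 8, 10, 11],
    [],
    []],
   [[],
    [],
    [],
    [],
    [],
    [0],
    [0, 2, 3],
    [],
    [0, 1, 3, 4],
    [],
    [],
    [],
    [],
    [0, 2, 3],
    [],
    [0, 3, 4, 6, 7],
    [],
    [0, 1, 4, 5, 7, 8],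
    [],
    [0],
    [],
    [],
    [],
    [0, 2, 3, 6, 4, 6, 5, 9, 10, 12, 13]],
   [[],
    [0],
    [],
    [],
    [0, 3],
    [0, 2, 3],
    [0, 1, 4],
    [],
    [],
    [],
    [],
    [3, 0, 3, 2, 5, 6],
    [],
    [0, 4, 1, 4, 3, 6, 7],
    [],
    [],
    [],
    [0, 2, 3, 5, 6, 9],
    [6, 5, 3, 0, 3, 7, 4, 2, 4, 7, 6, 5, 9, 10],
    [0, 2, 3, 4, 6, 7, 10],
    [],
    [],
    [3, 0, 3, 2, 5, 6, 7, 9, 10, 13],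
    [0, 4, 1, 4, 3, 6, 7, 8, 10, 11, 14]],
   [[],
    [0],
    [0, 1],
    [],
    [],
    [],
    [],
    [],
    [],
    [0, 2, 5],
    [0, 2, 3, 6],
    [0, 1, 3, 6],
    [0, 1, 3, 4, 7],
    [0, 1, 2, 4, 7],
    [0, 1, 2, 4, 5, 8],
    [],
    [],
    [],
    [],
    [],
    [],
    [0, 8, 7, 5, 2, 5, 9, 6, 4, 6, 9, 8, 7, 11, 12],
    [0, 1, 9, 8, 6, 3, 6, 10, 7, 5, 7, 10, 9, 8, 12, 13],
    [0, 1, 2, 10, 9, 7, 4, 7, 11, 8, 6, 8, 11, 10, 9, 13, 14]],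
   [[],
    [],
    [],
    [],
    [],
    [],
    [],
    [],
    [],
    [],
    [],
    [],
    [],
    [],
    [],
    [],
    [],
    [],
    [],
    [],
    [],
    [],
    [],
    []]]

def RT : List (List (List (Fin 24 × ℤ))) :=
  [[[(1, 1)],
    [],
    [],
    [],
    [(6, 1), (3, 1)],
    [],
    [],
    [(8, 1), (5, 1), (2, 1)],
    [],
    [(10, 1), (1, 1)],
    [],
    [(13, 1)],
    [(14, 1), (10, 1)],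
    [],
    [],
    [(16, 1)],
    [],
    [(19, 1)],
    [],
    [],
    [],
    [],
    [(23, 1), (21, 1)],
    []],
   [[],
    [(2, 1), (0, 1)],
    [],
    [(4, 1), (2, 1)],
    [],
    [(7, 1)],
    [],
    [],
    [],
    [(11, 1), (7, 1)],
    [(12, 1), (8, 1)],
    [],
    [],
    [(14, 1), (11, 1)],
    [],
    [],
    [(18, 1), (15, 1), (14, 1), (6, 1)],
    [],
    [],
    [(20, 1), (17, 1)],
    [],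
    [(22, 1), (20, 1)],
    [],
    []],
   [[],
    [],
    [(3, 1), (1, 1)],
    [],
    [],
    [],
    [],
    [(9, 1), (5, 1), (4, 1)],
    [(10, 1), (6, 1)],
    [],
    [],
    [],
    [(15, 1), (11, 1), (10, 1)],
    [],
    [(16, 1), (13, 1)],
    [],
    [],
    [],
    [],
    [],
    [(21, 1), (19, 1), (18, 1)],
    [],
    [],
    []],
   [[],
    [],
    [],
    [(5, 1), (2, 1)],
    [(7, 1)],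
    [],
    [(8, 1)],
    [],
    [],
    [],
    [],
    [],
    [],
    [],
    [],
    [(17, 1), (12, 1)],
    [(19, 1), (14, 1), (10, 1)],
    [],
    [(20, 1)],
    [],
    [],
    [],
    [],
    []],
   [[],
    [],
    [],
    [],
    [],
    [],
    [],
    [],
    [],
    [],
    [],
    [],
    [],
    [],
    [],
    [],
    [],
    [],
    [],
    [],
    [],
    [],
    [],
    []]]

def mT : List (List (List ℤ)) :=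
  [[[1], [], [], [], [], [], [], [], [], [], [], [], [], [], [], [], [], [], [], [], [], [], [], []],
   [[0, 1], [1], [], [], [], [], [], [], [], [], [], [], [], [], [], [], [], [], [], [], [], [], [], []],
   [[0, 0, 1], [0, 1], [1], [], [], [], [], [], [], [], [], [], [], [], [], [], [], [], [], [], [], [], [], []],
   [[0, 0, 0, 1], [0, 0, 1], [0, 1], [1], [], [], [], [], [], [], [], [], [], [], [], [], [], [], [], [], [], [], [], []],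
   [[0, 0, 0, 0, 1], [0, 0, 0, 1], [0, 0, 1], [0, 1], [1], [], [], [], [], [], [], [], [], [], [], [], [], [], [], [], [], [], [], []],
   [[0, 0, 0, 0, 1], [0, 0, 0, 1], [0, 0, 1], [0, 1], [], [1], [], [], [], [], [], [], [], [], [], [], [], [], [], [], [], [], [], []],
   [[0, 0, 0, 0, 0, 1], [0, 0, 0, 0, 1], [0, 0, 0, 1], [0, 0, 1], [0, 1], [], [1], [], [], [], [], [], [], [], [], [], [], [], [], [], [], [], [], []],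
   [[0, 0, 0, 1, 0, 1], [0, 0, 1, 0, 1], [0, 1, 0, 1], [0, 0, 1], [0, 1], [0, 1], [], [1], [], [], [], [], [], [], [], [], [], [], [], [], [], [], [], []],
   [[0, 0, 0, 0, 1, 0, 1], [0, 0, 0, 1, 0, 1], [0, 0, 1, 0, 1], [0, 0, 0, 1], [0, 0, 1], [0, 0, 1], [0, 1], [0, 1], [1], [], [], [], [], [], [], [], [], [], [], [], [], [], [], []],
   [[0, 0, 1, 0, 0, 0, 1], [0, 1, 0, 0, 0, 1], [0, 0, 0, 0, 1], [0, 0, 0, 1], [0, 0, 1], [0, 0, 1], [], [0, 1], [], [1], [], [], [], [], [], [], [], [], [], [], [], [], [], []],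
   [[0, 0, 0, 1, 0, 1, 0, 1], [0, 0, 1, 0, 1, 0, 1], [0, 0, 0, 1, 0, 1], [0, 0, 1, 0, 1], [0, 0, 0, 1], [0, 1, 0, 1], [0, 0, 1], [0, 0, 1], [0, 1], [0, 1], [1], [], [], [], [], [], [], [], [], [], [], [], [], []],
   [[0, 1, 0, 0, 0, 0, 0, 1], [0, 0, 0, 0, 0, 0, 1], [0, 0, 0, 0, 0, 1], [0, 0, 0, 0, 1], [0, 0, 0, 1], [0, 0, 0, 1], [], [0, 0, 1], [], [0, 1], [], [1], [], [], [], [], [], [], [], [], [], [], [], []],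
   [[0, 0, 1, 0, 1, 0, 1, 0, 1], [0, 0, 0, 1, 0, 1, 0, 1], [0, 0, 1, 0, 1, 0, 1], [0, 0, 0, 1, 0, 1], [0, 0, 1, 0, 1], [0, 0, 1, 0, 1], [0, 0, 0, 1], [0, 1, 0, 1], [0, 0, 1], [0, 0, 1], [0, 1], [0, 1], [1], [], [], [], [], [], [], [], [], [], [], []],
   [[0, 0, 1, 0, 0, 0, 1, 0, 1], [0, 1, 0, 0, 0, 1, 0, 1], [0, 0, 0, 0, 1, 0, 1], [0, 0, 0, 1, 0, 1], [0, 0, 0, 0, 1], [0, 0, 1, 0, 1], [0, 0, 0, 1], [0, 0, 0, 1], [0, 0, 1], [0, 0, 1], [0, 1], [0, 1], [], [1], [], [], [], [], [], [], [], [], [], []],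
   [[0, 0, 0, 1, 0, 1, 0, 1, 0, 1], [0, 0, 1, 0, 1, 0, 1, 0, 1], [0, 1, 0, 1, 0, 1, 0, 1], [0, 0, 0, 0, 1, 0, 1], [0, 0, 0, 1, 0, 1], [0, 0, 0, 1, 0, 1], [0, 0, 1, 0, 1], [0, 0, 1, 0, 1], [0, 1, 0, 1], [0, 0, 0, 1], [0, 0, 1], [0, 0, 1], [0, 1], [0, 1], [1], [], [], [], [], [], [], [], [], []],
   [[0, 0, 0, 1, 0, 1, 0, 0, 0, 1], [0, 0, 0, 0, 1, 0, 0, 0, 1], [0, 0, 0, 1, 0, 0, 0, 1], [0, 0, 1, 0, 0, 0, 1], [0, 1, 0, 0, 0, 1], [0, 0, 0, 0, 0, 1], [0, 0, 0, 0, 1], [0, 0, 0, 0, 1], [0, 0, 0, 1], [0, 0, 0, 1], [0, 0, 1], [0, 0, 1], [0, 1], [], [], [1], [], [], [], [], [], [], [], []],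
   [[0, 0, 0, 0, 2, 0, 1, 0, 1, 0, 1], [0, 0, 0, 2, 0, 1, 0, 1, 0, 1], [0, 0, 1, 0, 1, 0, 1, 0, 1], [0, 1, 0, 1, 0, 1, 0, 1], [0, 0, 1, 0, 1, 0, 1], [0, 0, 0, 0, 1, 0, 1], [0, 1, 0, 1, 0, 1], [0, 0, 0, 1, 0, 1], [0, 0, 1, 0, 1], [0, 0, 1, 0, 1], [0, 1, 0, 1], [0, 0, 0, 1], [0, 0, 1], [0, 0, 1], [0, 1], [0, 1], [1], [], [], [], [], [], [], []],
   [[0, 0, 0, 0, 1, 0, 0, 0, 0, 0, 1], [0, 0, 0, 0, 0, 0, 0, 0, 0, 1], [0, 0, 0, 0, 0, 0, 0, 0, 1], [0, 0, 0, 0, 0, 0, 0, 1], [0, 0, 0, 0, 0, 0, 1], [0, 0, 0, 0, 0, 0, 1], [0, 0, 0, 0, 0, 1], [0, 0, 0, 0, 0, 1], [0, 0, 0, 0, 1], [0, 0, 0, 0, 1], [0, 0, 0, 1], [0, 0, 0, 1], [0, 0, 1], [], [], [0, 1], [], [1], [], [], [], [], [], []],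
   [[0, 0, 0, 0, 0, 0, 0, 1, 0, 0, 0, 1], [0, 0, 0, 0, 0, 0, 1, 0, 0, 0, 1], [0, 0, 0, 0, 0, 1, 0, 0, 0, 1], [0, 0, 0, 0, 1, 0, 0, 0, 1], [0, 0, 0, 1, 0, 0, 0, 1], [0, 0, 0, 0, 0, 0, 0, 1], [0, 0, 1, 0, 0, 0, 1], [0, 0, 0, 0, 0, 0, 1], [0, 0, 0, 0, 0, 1], [0, 0, 0, 0, 0, 1], [0, 0, 0, 0, 1], [0, 0, 0, 0, 1], [0, 0, 0, 1], [0, 0, 0, 1], [0, 0, 1], [0, 0, 1], [0, 1], [], [1], [], [], [], [], []],
   [[0, 0, 0, 0, 0, 1, 0, 0, 0, 1, 0, 1], [0, 0, 0, 0, 1, 0, 0, 0, 1, 0, 1], [0, 0, 0, 0, 0, 0, 0, 1, 0, 1], [0, 0, 0, 0, 0, 0, 1, 0, 1], [0, 0, 0, 0, 0, 1, 0, 1], [0, 0, 0, 0, 0, 1, 0, 1], [0, 0, 0, 0, 1, 0, 1], [0, 0, 0, 0, 1, 0, 1], [0, 0, 0, 1, 0, 1], [0, 0, 0, 1, 0, 1], [0, 0, 1, 0, 1], [0, 0, 0, 0, 1], [0, 0, 0, 1], [0, 0, 0, 1], [0, 0, 1], [0, 0, 1], [0, 1], [0, 1], [], [1], [], [], [], []],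
   [[0, 0, 0, 0, 0, 0, 1, 0, 1, 0, 1, 0, 1], [0, 0, 0, 0, 0, 1, 0, 1, 0, 1, 0, 1], [0, 0, 0, 0, 1, 0, 1, 0, 1, 0, 1], [0, 0, 0, 0, 0, 1, 0, 1, 0, 1], [0, 0, 0, 0, 1, 0, 1, 0, 1], [0, 0, 0, 0, 1, 0, 1, 0, 1], [0, 0, 0, 1, 0, 1, 0, 1], [0, 0, 0, 1, 0, 1, 0, 1], [0, 0, 1, 0, 1, 0, 1], [0, 0, 0, 0, 1, 0, 1], [0, 0, 0, 1, 0, 1], [0, 0, 0, 1, 0, 1], [0, 0, 1, 0, 1], [0, 0, 1, 0, 1], [0, 1, 0, 1], [0, 0, 0, 1], [0, 0, 1], [0, 0, 1], [0, 1], [0, 1], [1], [], [], []],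
   [[0, 0, 0, 0, 0, 0, 0, 1, 0, 1, 0, 0, 0, 1], [0, 0, 0, 0, 0, 0, 1, 0, 1, 0, 0, 0, 1], [0, 0, 0, 0, 0, 1, 0, 1, 0, 0, 0, 1], [0, 0, 0, 0, 1, 0, 1, 0, 0, 0, 1], [0, 0, 0, 0, 0, 1, 0, 0, 0, 1], [0, 0, 0, 1, 0, 1, 0, 0, 0, 1], [0, 0, 0, 0, 1, 0, 0, 0, 1], [0, 0, 0, 0, 1, 0, 0, 0, 1], [0, 0, 0, 1, 0, 0, 0, 1], [0, 0, 0, 1, 0, 0, 0, 1], [0, 0, 1, 0, 0, 0, 1], [0, 0, 1, 0, 0, 0, 1], [0, 0, 0, 0, 0, 1], [0, 1, 0, 0, 0, 1], [0, 0, 0, 0, 1], [0, 0, 0, 0, 1], [0, 0, 0, 1], [0, 0, 0, 1], [0, 0, 1], [0, 0, 1], [0, 1], [1], [], []],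
   [[0, 0, 0, 0, 0, 0, 0, 0, 1, 0, 0, 0, 0, 0, 1], [0, 0, 0, 0, 0, 0, 0, 1, 0, 0, 0, 0, 0, 1], [0, 0, 0, 0, 0, 0, 1, 0, 0, 0, 0, 0, 1], [0, 0, 0, 0, 0, 1, 0, 0, 0, 0, 0, 1], [0, 0, 0, 0, 1, 0, 0, 0, 0, 0, 1], [0, 0, 0, 0, 1, 0, 0, 0, 0, 0, 1], [0, 0, 0, 0, 0, 0, 0, 0, 0, 1], [0, 0, 0, 1, 0, 0, 0, 0, 0, 1], [0, 0, 0, 0, 0, 0, 0, 0, 1], [0, 0, 1, 0, 0, 0, 0, 0, 1], [0, 0, 0, 0, 0, 0, 0, 1], [0, 1, 0, 0, 0, 0, 0, 1], [0, 0, 0, 0, 0, 0, 1], [0, 0, 0, 0, 0, 0, 1], [0, 0, 0, 0, 0, 1], [0, 0, 0, 0, 0, 1], [0, 0, 0, 0, 1], [0, 0, 0, 0, 1], [0, 0, 0, 1], [0, 0, 0, 1], [0, 0, 1], [0, 1], [1], []],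
   [[0, 0, 0, 0, 0, 0, 0, 0, 0, 0, 0, 0, 0, 0, 0, 1], [0, 0, 0, 0, 0, 0, 0, 0, 0, 0, 0, 0, 0, 0, 1], [0, 0, 0, 0, 0, 0, 0, 0, 0, 0, 0, 0, 0, 1], [0, 0, 0, 0, 0, 0, 0, 0, 0, 0, 0, 0, 1], [0, 0, 0, 0, 0, 0, 0, 0, 0, 0, 0, 1], [0, 0, 0, 0, 0, 0, 0, 0, 0, 0, 0, 1], [0, 0, 0, 0, 0, 0, 0, 0, 0, 0, 1], [0, 0, 0, 0, 0, 0, 0, 0, 0, 0, 1], [0, 0, 0, 0, 0, 0, 0, 0, 0, 1], [0, 0, 0, 0, 0, 0, 0, 0, 0, 1], [0, 0, 0, 0, 0, 0, 0, 0, 1], [0, 0, 0, 0, 0, 0, 0, 0, 1], [0, 0, 0, 0, 0, 0, 0, 1], [0, 0, 0, 0, 0, 0, 0, 1], [0, 0, 0, 0, 0, 0, 1], [0, 0, 0, 0, 0, 0, 1], [0, 0, 0, 0, 0, 1], [0, 0, 0, 0, 0, 1], [0, 0, 0, 0, 1], [0, 0, 0, 0, 1], [0, 0, 0, 1], [0, 0, 1], [0, 1], [1]]]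


def wd (i : Fin 24) : List (Fin 5) := wdT.getD i []
def par (i : Fin 24) : Fin 5 × Fin 24 := parT.getD i (0, 0)
def nxt (s : Fin 5) (i : Fin 24) : Fin 24 := (nxtT.getD s []).getD i 0
def kind (s : Fin 5) (i : Fin 24) : ℕ := (kindT.getD s []).getD i 0
def fixl (s : Fin 5) (i : Fin 24) : Fin 5 := (fixT.getD s []).getD i 0
def cert (s : Fin 5) (i : Fin 24) : List ℕ := (certT.getD s []).getD i []
def RR (s : Fin 5) (i : Fin 24) : List (Fin 24 × ℤ) := (RT.getD s []).getD i []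
def mP (i j : Fin 24) : List ℤ := (mT.getD i []).getD j []
def wK : List (Fin 5) := [1, 2, 1, 2, 3, 2, 1, 2, 3]

abbrev V5 : Type := ℤ × ℤ × ℤ × ℤ × ℤ

def act : Fin 5 → V5 → V5
  | 0, (a, b, c, d, e) => (-a, a + b, c, d, e)
  | 1, (a, b, c, d, e) => (a + b, -b, b + c, d, e)
  | 2, (a, b, c, d, e) => (a, b + 2 * c, -c, c + d, e)
  | 3, (a, b, c, d, e) => (a, b, c + d, -d, d + e)
  | 4, (a, b, c, d, e) => (a, b, c, d + e, -e)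

def vec (ω : List (Fin 5)) : V5 := ω.foldr act (1, 1, 1, 1, 1)

def mv : List (Fin 5) → List (Fin 5)
  | a :: b :: c :: d :: r =>
    if affineF4.M a b = 2 then b :: a :: c :: d :: r
    else if affineF4.M a b = 3 ∧ c = a then b :: a :: b :: d :: r
    else if affineF4.M a b = 4 ∧ c = a ∧ d = b then b :: a :: b :: a :: r
    else a :: b :: c :: d :: r
  | [a, b, c] =>
    if affineF4.M a b = 2 then [b, a, c]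
    else if affineF4.M a b = 3 ∧ c = a then [b, a, b] else [a, b, c]
  | [a, b] => if affineF4.M a b = 2 then [b, a] else [a, b]
  | l => l

def move (ω : List (Fin 5)) (p : ℕ) : List (Fin 5) := ω.take p ++ mv (ω.drop p)

def moves (ω : List (Fin 5)) (ps : List ℕ) : List (Fin 5) := ps.foldl move ω

def redCheck : List (Fin 5) → Bool
  | [] => true
  | s :: ω => redCheck ω && (List.range ω.length).all fun j => vec (s :: ω) != vec (ω.eraseIdx j)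

def padd : List ℤ → List ℤ → List ℤ
  | [], q => q
  | p, [] => p
  | a :: p, b :: q => (a + b) :: padd p q

def psmul (c : ℤ) (p : List ℤ) : List ℤ := p.map (c * ·)

def pzero (p : List ℤ) : Bool := p.all (· == 0)

/-- `v⁻¹` times the `j`-th coordinate of `C_s` applied to the `i`-th canonical vector -/
def lhsP (s : Fin 5) (i j : Fin 24) : List ℤ :=
  if kind s j = 2 then padd (mP i j) (0 :: 0 :: mP i j)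
  else if kind s j = 0 then padd (0 :: mP i (nxt s j)) (0 :: 0 :: mP i j)
  else padd (0 :: mP i (nxt s j)) (mP i j)

def rhsP (l : List (Fin 24 × ℤ)) (j : Fin 24) : List ℤ :=
  l.foldr (fun p acc => padd (psmul p.2 (mP p.1 j)) acc) []

def demIdx : List (Fin 5) → Fin 24 → Fin 24
  | [], i => i
  | s :: ω, i => if kind s (demIdx ω i) = 0 then nxt s (demIdx ω i) else demIdx ω i

lemma chk_wd_J : ∀ i, ∀ s ∈ wd i, s ≠ 4 := by decide +kernel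

lemma chk_wd_zero : wd 0 = [] := by decide +kernel

lemma chk_red : ∀ i, redCheck (wd i) = true := by decide +kernel

lemma chk_redK : redCheck wK = true := by decide +kernel

lemma chk_par : ∀ i, i ≠ 0 → (par i).2 < i ∧ (par i).1 ≠ 4 ∧ wd i = (par i).1 :: wd (par i).2 ∧
    kind (par i).1 (par i).2 = 0 ∧
    (∀ t : Fin 5, t ≠ 0 → t ≠ 4 → vec (wd i) ≠ vec (wd (par i).2 ++ [t])) ∧
    (RR (par i).1 (par i).2).head? = some (i, 1) ∧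
    ∀ p ∈ (RR (par i).1 (par i).2).tail, p.1 < i := by decide +kernel

lemma chk_up : ∀ s i, s ≠ 4 → kind s i = 0 → moves (s :: wd i) (cert s i) = wd (nxt s i) ∧
    (wd (nxt s i)).length = (wd i).length + 1 := by decide +kernel

lemma chk_down : ∀ s i, s ≠ 4 → kind s i = 1 → kind s (nxt s i) = 0 := by decide +kernel

lemma chk_up' : ∀ s i, kind s i = 0 → kind s (nxt s i) = 1 := by decide +kernel

lemma chk_fix : ∀ s i, s ≠ 4 → kind s i = 2 → moves (s :: wd i) (cert s i) = wd i ++ [fixl s i] ∧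
    fixl s i ≠ 0 ∧ fixl s i ≠ 4 ∧ nxt s i = i := by decide +kernel

lemma chk_kind : ∀ s i, kind s i = 0 ∨ kind s i = 1 ∨ kind s i = 2 := by decide +kernel

lemma chk_invol : ∀ s i, nxt s (nxt s i) = i := by decide +kernel

lemma chk_kind2 : ∀ s i, kind s (nxt s i) = 2 ↔ kind s i = 2 := by decide +kernel

lemma chk_wK : ∀ t : Fin 5, t ≠ 0 → t ≠ 4 →
    ∃ ps ∈ [[], [0], [3, 2, 5, 6, 3, 1, 0]], (moves wK ps).head? = some t ∧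
      (moves wK ps).length = 9 := by decide +kernel

lemma chk_wK_K : ∀ s ∈ wK, s ≠ 0 ∧ s ≠ 4 := by decide +kernel

lemma chk_m_diag : ∀ i, mP i i = [1] := by decide +kernel

lemma chk_m_off : ∀ i j, j ≠ i → (mP i j).headD 0 = 0 := by decide +kernel

lemma chk_m_zero : ∀ j, j ≠ 0 → mP 0 j = [] := by decide +kernel

lemma chk_mul : ∀ s i j, s ≠ 4 → kind s i = 0 →
    pzero (padd (lhsP s i j) (psmul (-1) (0 :: rhsP (RR s i) j))) = true := by decide +kernel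

def S1 : List (Fin 24) := [6, 8, 10, 11, 12, 13, 14, 15, 16, 17, 18, 19, 20, 21, 22, 23]
def S2 : List (Fin 24) := [17, 18, 19, 20, 21, 22, 23]

lemma chk_S1 : ∀ s, ∀ i ∈ S1, ∀ p ∈ RR s i, p.1 ∈ S1 := by decide +kernel
lemma chk_S2 : ∀ s, ∀ i ∈ S2, ∀ p ∈ RR s i, p.1 ∈ S2 := by decide +kernel
lemma chk_S1_len : ∀ i ∈ S1, (wd 6).length ≤ (wd i).length := by decide +kernel
lemma chk_S2_len : ∀ i ∈ S2, (wd 17).length ≤ (wd i).length := by decide +kernel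
lemma chk_dem1 : demIdx (wd 6 ++ wK).reverse 6 = 17 := by decide +kernel
lemma chk_dem2 : demIdx (wd 17 ++ wK).reverse 17 = 23 := by decide +kernel
lemma chk_len : (wd 17).length < (wd 23).length := by decide +kernel

end Pool.Agent.Lib.MP_8cdcda_al
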