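import Mathlib

/-!
Definitions for problem MP_8cdcda_al: Hecke algebra, Kazhdan-Lusztig basis, left cells,
the a-function, distinguished involutions and the element lambda(x,y) of a Coxeter system.
-/

namespace Pool.Agent.Lib.MP_8cdcda_al

open LaurentPolynomial

/-- The ring `ℤ[v, v⁻¹]`; `v = q^(1/2)` is `T 1`, so `q = T 2` and `v^k = T k`. -/
abbrev A : Type := LaurentPolynomial ℤ

/-- The Coxeter matrix of the affine Weyl group of type affine F4, with diagram
`0 - 1 =4= 2 - 3 - 4` (nodes `0,1,2,3` span the finite diagram F4, node `4` is the extra node). -/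
def affineF4 : CoxeterMatrix (Fin 5) where
  M := !![1, 3, 2, 2, 2;
          3, 1, 4, 2, 2;
          2, 4, 1, 3, 2;
          2, 2, 3, 1, 3;
          2, 2, 2, 3, 1]
  isSymm := by decide
  diagonal := by decide
  off_diagonal := by decide

/-- `p` lies in `v^n ℤ[v⁻¹]`: no power of `v` above `v^n` occurs in `p`. -/
def DegLE (p : A) (n : ℤ) : Prop := ∀ k : ℤ, n < k → p.coeff k = 0

variable {B W : Type} [Group W] {M : CoxeterMatrix B}

/-- The Bruhat order: the reflexive transitive closure of `a → a t`, for `t` a reflection with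
`ℓ(a) < ℓ(a t)`. -/
def BruhatLE (cs : CoxeterSystem M W) : W → W → Prop :=
  Relation.ReflTransGen fun a b => ∃ t, cs.IsReflection t ∧ b = a * t ∧ cs.length a < cs.length b

/-- `H` is the Iwahori-Hecke algebra of the Coxeter system `cs` over `ℤ[v, v⁻¹]`, equal
parameters, with standard basis `Tb w = T_w`. -/
structure Hecke (cs : CoxeterSystem M W) (H : Type) [Ring H] [Algebra A H] where
  /-- the standard basis `T_w` -/
  Tb : Module.Basis W A H
  T_one : Tb 1 = 1
  T_mul : ∀ (i : B) (w : W), cs.length w < cs.length (cs.simple i * w) →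
    Tb (cs.simple i) * Tb w = Tb (cs.simple i * w)
  T_quad : ∀ i : B, (Tb (cs.simple i) - algebraMap A H (T 2)) * (Tb (cs.simple i) + 1) = 0

/-- The Hecke algebra together with its bar involution (`v ↦ v⁻¹`, `T_w ↦ (T_{w⁻¹})⁻¹`) and its
Kazhdan-Lusztig basis `Cb w = C'_w = Σ_{y ≤ w} p_{y,w} v^{-ℓ(y)} T_y`, which is bar invariant
with `p_{w,w} = 1` and `p_{y,w} ∈ v⁻¹ ℤ[v⁻¹]` for `y ≠ w`. -/
structure HeckeKL (cs : CoxeterSystem M W) (H : Type) [Ring H] [Algebra A H]
    extends Hecke cs H where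
  /-- the bar involution -/
  bar : H →+* H
  bar_smul : ∀ (a : A) (h : H), bar (a • h) = invert a • bar h
  bar_T : ∀ w : W, bar (Tb w) * Tb w⁻¹ = 1
  /-- the Kazhdan-Lusztig basis -/
  Cb : Module.Basis W A H
  C_bar : ∀ w : W, bar (Cb w) = Cb w
  C_diag : ∀ w : W, T (cs.length w) * Tb.repr (Cb w) w = 1
  C_off : ∀ y w : W, y ≠ w → DegLE (T (cs.length y) * Tb.repr (Cb w) y) (-1)
  C_supp : ∀ y w : W, Tb.repr (Cb w) y ≠ 0 → BruhatLE cs y w

namespace HeckeKL

variable {cs : CoxeterSystem M W} {H : Type} [Ring H] [Algebra A H] (D : HeckeKL cs H)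

/-- The left preorder `x ≤_L y`: generated by the pairs `(x, y)` such that `C_x` occurs with a
nonzero coefficient in `C_s C_y` for some simple reflection `s`. -/
def LeftLE : W → W → Prop :=
  Relation.ReflTransGen fun x y => ∃ i : B, D.Cb.repr (D.Cb (cs.simple i) * D.Cb y) x ≠ 0

/-- `x ∼_L y`: `x` and `y` lie in the same left cell. -/
def LeftEquiv (x y : W) : Prop := D.LeftLE x y ∧ D.LeftLE y x

/-- `x` is a shortest element of its left cell. -/
def Shortest (x : W) : Prop := ∀ y : W, D.LeftEquiv y x → cs.length x ≤ cs.length y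

/-- `w = λ(x,y)`: with `T_x T_y = Σ f_{x,y,z} T_z`, one has `f_{x,y,w} ≠ 0` and `z ≤ w` for
every `z` with `f_{x,y,z} ≠ 0`. -/
def IsLambda (x y w : W) : Prop :=
  D.Tb.repr (D.Tb x * D.Tb y) w ≠ 0 ∧
    ∀ z : W, D.Tb.repr (D.Tb x * D.Tb y) z ≠ 0 → BruhatLE cs z w

/-- `a(z) = n` for Lusztig's a-function: `n` is the least natural number with
`h_{x,y,z} ∈ v^n ℤ[v⁻¹]` for all `x, y`, where `C_x C_y = Σ h_{x,y,z} C_z`. -/
def IsA (z : W) (n : ℕ) : Prop :=
  IsLeast {m : ℕ | ∀ x y : W, DegLE (D.Cb.repr (D.Cb x * D.Cb y) z) m} n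

/-- `Δ(z) = n`: `p_{e,z} = n_z v^{-n} +` lower powers of `v`, with `n_z ≠ 0`; here `p_{e,z}` is
the coefficient of `T_e` in `C_z`. -/
def IsDelta (z : W) (n : ℕ) : Prop :=
  (D.Tb.repr (D.Cb z) 1).coeff (-(n : ℤ)) ≠ 0 ∧ DegLE (D.Tb.repr (D.Cb z) 1) (-(n : ℤ))

/-- Lusztig's set of distinguished involutions `{z : a(z) = Δ(z)}`. -/
def D0 : Set W := {z | ∃ n : ℕ, D.IsA z n ∧ D.IsDelta z n}

end HeckeKL

end Pool.Agent.Lib.MP_8cdcda_al
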