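import Pool.Agent.Lib.MP_8cdcda_al.Defs

/-!
Degree bounds for Laurent polynomials, and a triangularity lemma.
-/

namespace Pool.Agent.Lib.MP_8cdcda_al

open LaurentPolynomial

lemma coeff_T_mul (n : ℤ) (p : A) (k : ℤ) : (T n * p : A).coeff k = p.coeff (k - n) := by
  unfold T
  rw [AddMonoidAlgebra.coeff_single_mul_apply, one_mul, neg_add_eq_sub]

lemma coeff_C_mul (a : ℤ) (p : A) (k : ℤ) : (C a * p : A).coeff k = a * p.coeff k := by
  rw [← single_eq_C, AddMonoidAlgebra.coeff_single_mul_apply]
  simp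

lemma coeff_add' (p q : A) (k : ℤ) : (p + q).coeff k = p.coeff k + q.coeff k := by
  simp

lemma coeff_sub' (p q : A) (k : ℤ) : (p - q).coeff k = p.coeff k - q.coeff k := by
  simp

lemma coeff_one' (k : ℤ) : (1 : A).coeff k = if k = 0 then 1 else 0 := by
  rw [← map_one (C : ℤ →+* A), C_apply]

namespace DegLE

lemma zero (n : ℤ) : DegLE 0 n := fun _ _ => by simp

lemma mono {p : A} {m n : ℤ} (h : DegLE p m) (hmn : m ≤ n) : DegLE p n :=
  fun k hk => h k (by omega)

lemma add {p q : A} {n : ℤ} (hp : DegLE p n) (hq : DegLE q n) : DegLE (p + q) n :=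
  fun k hk => by rw [coeff_add', hp k hk, hq k hk, add_zero]

lemma sub {p q : A} {n : ℤ} (hp : DegLE p n) (hq : DegLE q n) : DegLE (p - q) n :=
  fun k hk => by rw [coeff_sub', hp k hk, hq k hk, sub_zero]

lemma sum {ι : Type*} (s : Finset ι) {f : ι → A} {n : ℤ} (h : ∀ i ∈ s, DegLE (f i) n) :
    DegLE (∑ i ∈ s, f i) n := by
  classical
  induction s using Finset.induction_on with
  | empty => simpa using zero n
  | insert a s ha ih =>
    rw [Finset.sum_insert ha]
    exact (h a (Finset.mem_insert_self _ _)).add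
      (ih fun i hi => h i (Finset.mem_insert_of_mem hi))

lemma mul {p q : A} {m n : ℤ} (hp : DegLE p m) (hq : DegLE q n) : DegLE (p * q) (m + n) := by
  intro k hk
  rw [AddMonoidAlgebra.coeff_mul_apply_left]
  unfold Finsupp.sum
  apply Finset.sum_eq_zero
  intro a ha
  beta_reduce
  by_cases h : m < a
  · rw [hp a h, zero_mul]
  · rw [hq (-a + k) (by omega), mul_zero]

lemma T (n : ℤ) : DegLE (T n) n := fun k hk => by
  rw [T_apply, if_neg (by omega)]

lemma C (a : ℤ) : DegLE (C a) 0 := fun k hk => by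
  rw [C_apply, if_neg (by omega)]

lemma one : DegLE 1 0 := fun k hk => by rw [coeff_one', if_neg (by omega)]

lemma pred {p : A} {n : ℤ} (hp : DegLE p n) (h : p.coeff n = 0) : DegLE p (n - 1) := by
  intro k hk
  by_cases h1 : k = n
  · rw [h1, h]
  · exact hp k (by omega)

lemma sub_C {p : A} (hp : DegLE p 0) : DegLE (p - LaurentPolynomial.C (p.coeff 0)) (-1) := by
  have := (hp.sub (C (p.coeff 0))).pred (by rw [coeff_sub', C_apply]; simp)
  simpa using this

lemma eq_zero_of_invert {p : A} (hp : DegLE p (-1)) (h : invert p = p) : p = 0 := by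
  apply LaurentPolynomial.ext
  intro k
  by_cases hk : -1 < k
  · rw [hp k hk]; simp
  · rw [← h, invert_apply, hp _ (by omega)]; simp

end DegLE

lemma exists_degLE (p : A) : ∃ n : ℕ, DegLE p n := by
  refine ⟨p.coeff.support.sup Int.toNat, fun k hk => ?_⟩
  by_contra h
  have h1 : k ∈ p.coeff.support := Finsupp.mem_support_iff.2 h
  have h2 := Finset.le_sup (f := Int.toNat) h1
  omega

lemma exists_degLE_finsupp {ι : Type*} (c : ι →₀ A) : ∃ n : ℕ, ∀ i, DegLE (c i) n := by
  classical
  choose f hf using exists_degLE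
  refine ⟨c.support.sup fun i => f (c i), fun i => ?_⟩
  by_cases hi : i ∈ c.support
  · refine (hf (c i)).mono ?_
    exact_mod_cast Finset.le_sup (f := fun i => f (c i)) hi
  · rw [Finsupp.notMem_support_iff.1 hi]; exact DegLE.zero _

/-- triangularity: a combination of a unitriangular family that vanishes in lengths `≥ k` has
no term of length `≥ k` -/
lemma tri_vanish {W ι H : Type*} [AddCommGroup H] [Module A H] (e : Module.Basis W A H)
    (len : W → ℕ) (f : ι → W) (hf : Function.Injective f) (b : ι → H)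
    (h1 : ∀ i, e.repr (b i) (f i) = 1)
    (h2 : ∀ i z, e.repr (b i) z ≠ 0 → z = f i ∨ len z < len (f i))
    (c : ι →₀ A) (k : ℕ)
    (h3 : ∀ z, k ≤ len z → e.repr (Finsupp.linearCombination A b c) z = 0) :
    ∀ i, k ≤ len (f i) → c i = 0 := by
  classical
  intro i hi
  by_contra hc
  have hne : c.support.Nonempty := ⟨i, Finsupp.mem_support_iff.2 hc⟩
  obtain ⟨j, hj, hmax⟩ := Finset.exists_max_image c.support (fun i => len (f i)) hne
  have h4 := hmax i (Finsupp.mem_support_iff.2 hc)
  have h5 := h3 (f j) (by omega)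
  rw [Finsupp.linearCombination_apply, Finsupp.sum, map_sum, Finsupp.finsetSum_apply,
    Finset.sum_eq_single j] at h5
  · rw [map_smul, Finsupp.smul_apply, h1, smul_eq_mul, mul_one] at h5
    exact Finsupp.mem_support_iff.1 hj h5
  · intro l hl hlj
    rw [map_smul, Finsupp.smul_apply]
    by_cases h6 : e.repr (b l) (f j) = 0
    · rw [h6, smul_zero]
    · rcases h2 l _ h6 with h7 | h7
      · exact absurd (hf h7).symm hlj
      · have := hmax l hl
        omega
  · intro h; exact absurd hj h

end Pool.Agent.Lib.MP_8cdcda_al
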