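import Pool.Agent.Lib.MP_8cdcda_al.KL

/-!
Existence of the Hecke algebra, of the bar involution and of the Kazhdan-Lusztig basis.
-/

namespace Pool.Agent.Lib.MP_8cdcda_al

open LaurentPolynomial CoxeterSystem Finsupp

variable {B W : Type} [Group W] {M : CoxeterMatrix B} (cs : CoxeterSystem M W)

open Classical in
/-- left multiplication by `T_s` on the free module -/
noncomputable def opL (i : B) : Module.End A (W →₀ A) :=
  Finsupp.linearCombination A fun w =>
    if cs.length w < cs.length (cs.simple i * w) then single (cs.simple i * w) 1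
    else (T 2 : A) • single (cs.simple i * w) 1 + (T 2 - 1 : A) • single w 1

open Classical in
/-- right multiplication by `T_s` on the free module -/
noncomputable def opR (i : B) : Module.End A (W →₀ A) :=
  Finsupp.linearCombination A fun w =>
    if cs.length w < cs.length (w * cs.simple i) then single (w * cs.simple i) 1
    else (T 2 : A) • single (w * cs.simple i) 1 + (T 2 - 1 : A) • single w 1

variable {cs}

lemma opL_up {i : B} {w : W} (h : cs.length w < cs.length (cs.simple i * w)) :
    opL cs i (single w 1) = single (cs.simple i * w) 1 := by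
  rw [opL, linearCombination_single, one_smul, if_pos h]

lemma opL_down {i : B} {w : W} (h : cs.length (cs.simple i * w) < cs.length w) :
    opL cs i (single w 1) =
      (T 2 : A) • single (cs.simple i * w) 1 + (T 2 - 1 : A) • single w 1 := by
  rw [opL, linearCombination_single, one_smul, if_neg (by omega)]

lemma opR_up {i : B} {w : W} (h : cs.length w < cs.length (w * cs.simple i)) :
    opR cs i (single w 1) = single (w * cs.simple i) 1 := by
  rw [opR, linearCombination_single, one_smul, if_pos h]

lemma opR_down {i : B} {w : W} (h : cs.length (w * cs.simple i) < cs.length w) :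
    opR cs i (single w 1) =
      (T 2 : A) • single (w * cs.simple i) 1 + (T 2 - 1 : A) • single w 1 := by
  rw [opR, linearCombination_single, one_smul, if_neg (by omega)]

lemma opL_opR_comm (i j : B) : opL cs i * opR cs j = opR cs j * opL cs i := by
  apply Finsupp.lhom_ext'
  intro w
  apply LinearMap.ext_ring
  simp only [LinearMap.comp_apply, lsingle_apply, Module.End.mul_apply]
  have h1 := cs.length_simple_mul w i
  have h2 := cs.length_mul_simple w j
  have h3 := cs.length_simple_mul (w * cs.simple j) i
  have h4 := cs.length_mul_simple (cs.simple i * w) j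
  have ha : cs.simple i * w * cs.simple j = cs.simple i * (w * cs.simple j) := mul_assoc _ _ _
  rw [ha] at h4
  rcases lt_or_gt_of_ne (cs.length_simple_mul_ne w i) with a1 | a1 <;>
  rcases lt_or_gt_of_ne (cs.length_mul_simple_ne w j) with a2 | a2 <;>
  rcases lt_or_gt_of_ne (cs.length_simple_mul_ne (w * cs.simple j) i) with a3 | a3
  · rw [opL_down a1, opR_down a2, map_add, map_add, map_smul, map_smul, map_smul, map_smul,
      opL_down a3, opL_down a1, opR_down a2, opR_down (w := cs.simple i * w) (by rw [ha]; omega),
      ha]
    module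
  · have e := swt_lemma cs i j (cs.simple i * w) (by rw [simple_mul_simple_cancel_left]; omega)
      (by rw [ha]; omega) (by rw [simple_mul_simple_cancel_left, ha]; omega)
    rw [simple_mul_simple_cancel_left, ha] at e
    have e2 : cs.simple i * w = w * cs.simple j := by
      conv_lhs => rw [e]
      rw [simple_mul_simple_cancel_left]
    rw [opL_down a1, opR_down a2, map_add, map_add, map_smul, map_smul, map_smul, map_smul,
      opL_up a3, opL_down a1, opR_down a2, opR_up (w := cs.simple i * w) (by rw [ha]; omega),
      ha, e2]
  · rw [opL_down a1, opR_up a2, map_add, map_smul, map_smul, opL_down a3, opR_up a2,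
      opR_up (w := cs.simple i * w) (by rw [ha]; omega), ha]
  · omega
  · omega
  · rw [opL_up a1, opR_down a2, map_add, map_smul, map_smul, opL_up a3, opL_up a1,
      opR_down (w := cs.simple i * w) (by rw [ha]; omega), ha]
  · have e := swt_lemma cs i j w a1 a2 (by rw [ha]; omega)
    rw [opL_up a1, opR_up a2, opL_down a3, opR_down (w := cs.simple i * w) (by rw [ha]; omega),
      ha, e]
  · rw [opL_up a1, opR_up a2, opL_up a3, opR_up (w := cs.simple i * w) (by rw [ha]; omega), ha]

lemma opL_quad (i : B) : (opL cs i - algebraMap A _ (T 2)) * (opL cs i + 1) = 0 := by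
  apply Finsupp.lhom_ext'
  intro w
  apply LinearMap.ext_ring
  simp only [LinearMap.comp_apply, lsingle_apply, Module.End.mul_apply, LinearMap.add_apply,
    LinearMap.sub_apply, Module.algebraMap_end_apply, Module.End.one_apply, LinearMap.zero_apply,
    map_add]
  rcases lt_or_gt_of_ne (cs.length_simple_mul_ne w i) with a1 | a1
  · rw [opL_down a1, map_add, map_smul, map_smul, opL_down a1,
      opL_up (w := cs.simple i * w) (by rwa [simple_mul_simple_cancel_left]),
      simple_mul_simple_cancel_left]
    module
  · rw [opL_up a1, opL_down (w := cs.simple i * w) (by rwa [simple_mul_simple_cancel_left]),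
      simple_mul_simple_cancel_left]
    module

variable (cs)

/-- the Hecke algebra as an algebra of operators -/
noncomputable def Halg : Subalgebra A (Module.End A (W →₀ A)) :=
  Algebra.adjoin A (Set.range (opL cs))

noncomputable instance instRingHalg : Ring (Halg cs) :=
  @Subalgebra.toRing A (Module.End A (W →₀ A)) _ _ (Module.End.instAlgebra A A (W →₀ A)) (Halg cs)

/-- evaluation at the identity -/
noncomputable def ev : Halg cs →ₗ[A] (W →₀ A) where
  toFun φ := φ.1 (single 1 1)
  map_add' _ _ := rfl
  map_smul' _ _ := rfl

lemma Halg_comm (φ : Halg cs) (j : B) : φ.1 * opR cs j = opR cs j * φ.1 := by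
  obtain ⟨φ, hφ⟩ := φ
  induction hφ using Algebra.adjoin_induction with
  | mem x hx => obtain ⟨i, rfl⟩ := hx; exact opL_opR_comm i j
  | algebraMap r => exact Algebra.commutes r _
  | add x y _ _ hx hy => simp only at hx hy ⊢; rw [add_mul, mul_add, hx, hy]
  | mul x y _ _ hx hy => simp only at hx hy ⊢; rw [mul_assoc, hy, ← mul_assoc, hx, mul_assoc]

lemma ev_injective : Function.Injective (ev cs) := by
  rw [injective_iff_map_eq_zero]
  intro φ hφ
  have key : ∀ (n : ℕ) (w : W), cs.length w = n → φ.1 (single w 1) = 0 := by
    intro n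
    induction n with
    | zero => intro w hw; rw [cs.length_eq_zero_iff.1 hw]; exact hφ
    | succ n ih =>
      intro w hw
      obtain ⟨j, hj⟩ := cs.exists_rightDescent_of_ne_one (w := w) (by rintro rfl; simp at hw)
      have h1 := cs.length_mul_simple w j
      unfold IsRightDescent at hj
      have h2 := opR_up (cs := cs) (i := j) (w := w * cs.simple j)
        (by rwa [simple_mul_simple_cancel_right])
      rw [simple_mul_simple_cancel_right] at h2
      rw [← h2, ← Module.End.mul_apply, Halg_comm, Module.End.mul_apply, ih _ (by omega), map_zero]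
  apply Subtype.ext
  apply Finsupp.lhom_ext'
  intro w
  apply LinearMap.ext_ring
  simpa using key _ w rfl

/-- the generator as an element of the algebra -/
noncomputable def gen (i : B) : Halg cs := ⟨opL cs i, Algebra.subset_adjoin ⟨i, rfl⟩⟩

lemma ev_surjective : Function.Surjective (ev cs) := by
  have key : ∀ (n : ℕ) (w : W), cs.length w = n → ∃ φ, ev cs φ = single w 1 := by
    intro n
    induction n with
    | zero => intro w hw; rw [cs.length_eq_zero_iff.1 hw]; exact ⟨1, rfl⟩
    | succ n ih =>
      intro w hw
      obtain ⟨i, hi⟩ := cs.exists_leftDescent_of_ne_one (w := w) (by rintro rfl; simp at hw)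
      have h1 := cs.length_simple_mul w i
      unfold IsLeftDescent at hi
      have h2 := opL_up (cs := cs) (i := i) (w := cs.simple i * w)
        (by rwa [simple_mul_simple_cancel_left])
      rw [simple_mul_simple_cancel_left] at h2
      obtain ⟨φ, hφ⟩ := ih (cs.simple i * w) (by omega)
      refine ⟨gen cs i * φ, ?_⟩
      rw [← h2, ← hφ]; rfl
  intro c
  induction c using Finsupp.induction_linear with
  | zero => exact ⟨0, map_zero _⟩
  | add f g hf hg =>
    obtain ⟨a, rfl⟩ := hf
    obtain ⟨b, rfl⟩ := hg
    exact ⟨a + b, map_add _ _ _⟩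
  | single w a =>
    obtain ⟨φ, hφ⟩ := key _ w rfl
    exact ⟨a • φ, by rw [map_smul, hφ]; simp⟩

/-- the standard basis of the algebra of operators -/
noncomputable def Tbasis : Module.Basis W A (Halg cs) :=
  Module.Basis.ofRepr (LinearEquiv.ofBijective (ev cs) ⟨ev_injective cs, ev_surjective cs⟩)

lemma ev_Tbasis (w : W) : ev cs (Tbasis cs w) = single w 1 := (Tbasis cs).repr_self w

lemma Tbasis_simple (i : B) : Tbasis cs (cs.simple i) = gen cs i := by
  apply ev_injective
  rw [ev_Tbasis]
  have := opL_up (cs := cs) (i := i) (w := 1) (by simp)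
  rw [mul_one] at this
  exact this.symm

/-- the Hecke algebra exists -/
noncomputable def hecke : Hecke cs (Halg cs) where
  Tb := Tbasis cs
  T_one := by
    apply ev_injective
    rw [ev_Tbasis]; rfl
  T_mul i w h := by
    apply ev_injective
    rw [ev_Tbasis, Tbasis_simple, ← opL_up h, ← ev_Tbasis]; rfl
  T_quad i := by
    rw [Tbasis_simple]
    apply Subtype.ext
    exact opL_quad i

variable {cs} {H : Type} [Ring H] [Algebra A H]

namespace Hecke

variable (D : Hecke cs H)

lemma T_simple_inv (i : B) : D.Tb (cs.simple i) *
    ((T (-2) : A) • D.Tb (cs.simple i) + (T (-2) - 1 : A) • (1 : H)) = 1 := by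
  have e : (T (-2) * T 2 : A) = 1 := by rw [T_mul_T]; simp
  rw [mul_add, mul_smul_comm, mul_smul_comm, D.T_sq, smul_add, smul_smul, smul_smul, mul_sub, e,
    mul_one, mul_one]
  module

lemma T_simple_inv' (i : B) :
    ((T (-2) : A) • D.Tb (cs.simple i) + (T (-2) - 1 : A) • (1 : H)) * D.Tb (cs.simple i) = 1 := by
  have := D.T_simple_inv i
  rw [mul_add, mul_smul_comm, mul_smul_comm, mul_one] at this
  rw [add_mul, smul_mul_assoc, smul_mul_assoc, one_mul, this]

lemma isUnit_Tb (w : W) : IsUnit (D.Tb w) := by
  obtain ⟨ω, hω, rfl⟩ := cs.exists_isReduced w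
  rw [D.T_word hω]
  apply List.prod_isUnit
  intro x hx
  obtain ⟨i, _, rfl⟩ := List.mem_map.1 hx
  exact ⟨⟨_, _, D.T_simple_inv i, D.T_simple_inv' i⟩, rfl⟩

/-- the inverse of `T_{w⁻¹}` -/
noncomputable def Ti (w : W) : H := Ring.inverse (D.Tb w⁻¹)

lemma Ti_mul (w : W) : D.Ti w * D.Tb w⁻¹ = 1 := Ring.inverse_mul_cancel _ (D.isUnit_Tb _)

lemma Ti_eq {w : W} {x : H} (h : D.Tb w⁻¹ * x = 1) : D.Ti w = x := by
  calc D.Ti w = D.Ti w * (D.Tb w⁻¹ * x) := by rw [h, mul_one]
    _ = x := by rw [← mul_assoc, Ti_mul, one_mul]

lemma mul_Ti (w : W) : D.Tb w⁻¹ * D.Ti w = 1 := Ring.mul_inverse_cancel _ (D.isUnit_Tb _)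

lemma Ti_one : D.Ti 1 = 1 := D.Ti_eq (by rw [inv_one, D.T_one, one_mul])

lemma Ti_simple (i : B) : D.Ti (cs.simple i) =
    (T (-2) : A) • D.Tb (cs.simple i) + (T (-2) - 1 : A) • (1 : H) :=
  D.Ti_eq (by rw [inv_simple]; exact D.T_simple_inv i)

lemma Ti_up (i : B) (w : W) (h : cs.length w < cs.length (cs.simple i * w)) :
    D.Ti (cs.simple i * w) = D.Ti (cs.simple i) * D.Ti w := by
  apply D.Ti_eq
  have h1 := cs.length_simple_mul w i
  rw [mul_inv_rev, ← D.T_mul_of_length (by
    rw [← mul_inv_rev, length_inv, length_inv, length_inv, length_simple]; omega),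
    mul_assoc, ← mul_assoc (D.Tb (cs.simple i)⁻¹), mul_Ti, one_mul, mul_Ti]

lemma Ti_sq (i : B) : D.Ti (cs.simple i) * D.Ti (cs.simple i) =
    (T (-2) : A) • (1 : H) + (T (-2) - 1 : A) • D.Ti (cs.simple i) := by
  have := D.Ti_mul (cs.simple i)
  rw [inv_simple] at this
  nth_rewrite 2 [D.Ti_simple i]
  rw [mul_add, mul_smul_comm, mul_smul_comm, this, mul_one]

/-- the bar map as an additive map -/
noncomputable def barAdd : H →+ H :=
  (Finsupp.linearCombination A D.Ti).toAddMonoidHom.comp
    ((Finsupp.mapRange.addMonoidHom (invert (R := ℤ)).toRingEquiv.toAddMonoidHom).comp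
      D.Tb.repr.toLinearMap.toAddMonoidHom)

lemma barAdd_smul_T (a : A) (w : W) : D.barAdd (a • D.Tb w) = invert a • D.Ti w := by
  simp [barAdd]

lemma barAdd_smul (a : A) (h : H) : D.barAdd (a • h) = invert a • D.barAdd h := by
  rw [← D.Tb.linearCombination_repr h]
  generalize D.Tb.repr h = c
  induction c using Finsupp.induction_linear with
  | zero => simp
  | add f g hf hg => simp only [map_add, smul_add, hf, hg]
  | single w b =>
    rw [linearCombination_single, smul_smul, barAdd_smul_T, barAdd_smul_T, map_mul, smul_smul]

lemma barAdd_T (w : W) : D.barAdd (D.Tb w) = D.Ti w := by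
  have := D.barAdd_smul_T 1 w
  rwa [one_smul, map_one, one_smul] at this

lemma barAdd_simple_mul (i : B) (h : H) :
    D.barAdd (D.Tb (cs.simple i) * h) = D.Ti (cs.simple i) * D.barAdd h := by
  rw [← D.Tb.linearCombination_repr h]
  generalize D.Tb.repr h = c
  induction c using Finsupp.induction_linear with
  | zero => simp
  | add f g hf hg => simp only [map_add, mul_add, hf, hg]
  | single w b =>
    rw [linearCombination_single, mul_smul_comm, barAdd_smul, barAdd_smul, mul_smul_comm, barAdd_T]
    congr 1
    rcases lt_or_gt_of_ne (cs.length_simple_mul_ne w i) with h1 | h1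
    · have h2 := D.Ti_up i (cs.simple i * w) (by rwa [simple_mul_simple_cancel_left])
      rw [simple_mul_simple_cancel_left] at h2
      rw [D.T_mul_down i w h1, map_add, barAdd_smul_T, barAdd_smul_T, map_sub, invert_T, map_one,
        h2, ← mul_assoc, Ti_sq, add_mul, smul_mul_assoc, smul_mul_assoc, one_mul]
    · rw [D.T_mul i w h1, barAdd_T, D.Ti_up i w h1]

lemma barAdd_T_mul (w : W) (h : H) : D.barAdd (D.Tb w * h) = D.Ti w * D.barAdd h := by
  have key : ∀ (n : ℕ) (w : W), cs.length w = n → D.barAdd (D.Tb w * h) = D.Ti w * D.barAdd h := by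
    intro n
    induction n with
    | zero => intro w hw; rw [cs.length_eq_zero_iff.1 hw, D.T_one, Ti_one, one_mul, one_mul]
    | succ n ih =>
      intro w hw
      obtain ⟨i, hi⟩ := cs.exists_leftDescent_of_ne_one (w := w) (by rintro rfl; simp at hw)
      have h1 := cs.length_simple_mul w i
      unfold IsLeftDescent at hi
      have h0 : cs.length (cs.simple i * w) < cs.length (cs.simple i * (cs.simple i * w)) := by
        rwa [simple_mul_simple_cancel_left]
      have h2 := D.T_mul i _ h0
      have h3 := D.Ti_up i _ h0
      rw [simple_mul_simple_cancel_left] at h2 h3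
      rw [← h2, h3, mul_assoc, barAdd_simple_mul, ih _ (by omega), mul_assoc]
  exact key _ w rfl

lemma barAdd_mul (x y : H) : D.barAdd (x * y) = D.barAdd x * D.barAdd y := by
  rw [← D.Tb.linearCombination_repr x]
  generalize D.Tb.repr x = c
  induction c using Finsupp.induction_linear with
  | zero => simp
  | add f g hf hg => simp only [map_add, add_mul, hf, hg]
  | single w b =>
    rw [linearCombination_single, smul_mul_assoc, barAdd_smul, barAdd_smul_T, barAdd_T_mul,
      smul_mul_assoc]

/-- the bar involution -/
noncomputable def barHom : H →+* H where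
  toFun := D.barAdd
  map_one' := by rw [← D.T_one, barAdd_T, Ti_one, D.T_one]
  map_mul' := D.barAdd_mul
  map_zero' := map_zero _
  map_add' := map_add _

lemma barHom_smul (a : A) (h : H) : D.barHom (a • h) = invert a • D.barHom h := D.barAdd_smul a h

lemma barHom_T (w : W) : D.barHom (D.Tb w) * D.Tb w⁻¹ = 1 := by
  have : D.barHom (D.Tb w) = D.Ti w := D.barAdd_T w
  rw [this, Ti_mul]

/-- the defining property of a Kazhdan-Lusztig element -/
def IsKL (w : W) (x : H) : Prop :=
  D.barHom x = x ∧ D.t.repr x w = 1 ∧ (∀ y, y ≠ w → DegLE (D.t.repr x y) (-1)) ∧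
    ∀ y, D.t.repr x y ≠ 0 → BruhatLE cs y w

lemma exists_KL (w : W) : ∃ x, D.IsKL w x := by
  classical
  have key : ∀ (n : ℕ) (w : W), cs.length w = n → ∃ x, D.IsKL w x := by
    intro n
    induction n using Nat.strong_induction_on with
    | _ n ih =>
      intro w hw
      by_cases hw1 : w = 1
      · subst hw1
        refine ⟨1, map_one _, ?_, ?_, ?_⟩
        · rw [← D.t_one]; simp
        · intro y hy
          rw [← D.t_one, Module.Basis.repr_self, single_eq_of_ne hy]; exact DegLE.zero _
        · intro y hy
          rw [← D.t_one, Module.Basis.repr_self] at hy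
          have : y = 1 := by
            by_contra h; exact hy (single_eq_of_ne h)
          rw [this]; exact BruhatLE.refl _
      obtain ⟨i, hi⟩ := cs.exists_leftDescent_of_ne_one hw1
      unfold IsLeftDescent at hi
      have ih' : ∀ z : W, ∃ x, cs.length z < n → D.IsKL z x := by
        intro z
        by_cases hz : cs.length z < n
        · obtain ⟨x, hx⟩ := ih _ hz z rfl
          exact ⟨x, fun _ => hx⟩
        · exact ⟨0, fun h => absurd h hz⟩
      choose Cx hC using ih'
      obtain ⟨b1, b2, b3, b4⟩ := hC (cs.simple i * w) (by omega)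
      set x := Cx (cs.simple i * w) with hx
      have hup : cs.length (cs.simple i * w) < cs.length (cs.simple i * (cs.simple i * w)) := by
        rwa [simple_mul_simple_cancel_left]
      have hxw : D.t.repr x w = 0 := by
        by_contra h
        have := (b4 w h).length_le
        omega
      have g1 : D.barHom (D.c i * x) = D.c i * x := by
        rw [map_mul, b1, D.bar_c D.barHom D.barHom_smul D.barHom_T]
      have g2 : D.t.repr (D.c i * x) w = 1 := by
        rw [repr_c_mul, b2, hxw, mul_zero, add_zero]
      have g3 : ∀ y, DegLE (D.t.repr (D.c i * x) y) 0 := by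
        intro y
        rw [repr_c_mul]
        apply DegLE.add
        · by_cases h : cs.simple i * y = cs.simple i * w
          · rw [h, b2]; exact DegLE.one
          · exact (b3 _ h).mono (by omega)
        · by_cases h : y = cs.simple i * w
          · rw [h, b2, if_neg (by omega), mul_one]
            exact (DegLE.T _).mono (by omega)
          · split_ifs
            · exact (DegLE.T 1).mul (b3 _ h)
            · exact ((DegLE.T (-1)).mul (b3 _ h)).mono (by omega)
      have g4 : ∀ y, D.t.repr (D.c i * x) y ≠ 0 → BruhatLE cs y w := by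
        intro y hy
        rw [repr_c_mul] at hy
        by_cases h : D.t.repr x y = 0
        · rw [h, mul_zero, add_zero] at hy
          have := ((b4 _ hy).lift_up hup).2
          rwa [simple_mul_simple_cancel_left, simple_mul_simple_cancel_left] at this
        · have := ((b4 _ h).lift_up hup).1
          rwa [simple_mul_simple_cancel_left] at this
      set h := D.c i * x with hh
      let S := (D.t.repr h).support.erase w
      have hS : ∀ z ∈ S, BruhatLE cs z w ∧ cs.length z < n := by
        intro z hz
        obtain ⟨h1, h2⟩ := Finset.mem_erase.1 hz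
        have h3 := g4 z (mem_support_iff.1 h2)
        refine ⟨h3, ?_⟩
        rcases h3.eq_or_lt with h4 | h4
        · exact absurd h4 h1
        · omega
      have hrepr : ∀ y, D.t.repr (h - ∑ z ∈ S, (C ((D.t.repr h z).coeff 0) : A) • Cx z) y =
          D.t.repr h y - ∑ z ∈ S, C ((D.t.repr h z).coeff 0) * D.t.repr (Cx z) y := by
        intro y
        rw [map_sub, Finsupp.sub_apply, map_sum, finsetSum_apply]
        simp only [map_smul, Finsupp.smul_apply, smul_eq_mul]
      refine ⟨h - ∑ z ∈ S, (C ((D.t.repr h z).coeff 0) : A) • Cx z, ?_, ?_, ?_, ?_⟩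
      · rw [map_sub, g1, map_sum]
        congr 1
        apply Finset.sum_congr rfl
        intro z hz
        rw [barHom_smul, invert_C, (hC z (hS z hz).2).1]
      · rw [hrepr, g2, Finset.sum_eq_zero, sub_zero]
        intro z hz
        have : D.t.repr (Cx z) w = 0 := by
          by_contra h1
          have := ((hC z (hS z hz).2).2.2.2 w h1).length_le
          have := (hS z hz).2
          omega
        rw [this, mul_zero]
      · intro y hy
        rw [hrepr]
        have hoff : ∀ z ∈ S, z ≠ y →
            DegLE (C ((D.t.repr h z).coeff 0) * D.t.repr (Cx z) y) (-1) := by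
          intro z hz hzy
          simpa using (DegLE.C _).mul ((hC z (hS z hz).2).2.2.1 y hzy.symm)
        by_cases hyS : y ∈ S
        · rw [← Finset.add_sum_erase S _ hyS, (hC y (hS y hyS).2).2.1, mul_one, ← sub_sub]
          apply (g3 y).sub_C.sub
          apply DegLE.sum
          intro z hz
          obtain ⟨h1, h2⟩ := Finset.mem_erase.1 hz
          exact hoff z h2 h1
        · have : D.t.repr h y = 0 := by
            by_contra h1
            exact hyS (Finset.mem_erase.2 ⟨hy, mem_support_iff.2 h1⟩)
          rw [this]
          apply (DegLE.zero _).sub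
          apply DegLE.sum
          intro z hz
          exact hoff z hz (by rintro rfl; exact hyS hz)
      · intro y hy
        rw [hrepr] at hy
        by_cases h1 : D.t.repr h y = 0
        · rw [h1, zero_sub, neg_ne_zero] at hy
          obtain ⟨z, hz, hz2⟩ := Finset.exists_ne_zero_of_sum_ne_zero hy
          exact ((hC z (hS z hz).2).2.2.2 y (right_ne_zero_of_mul hz2)).trans (hS z hz).1
        · exact g4 y h1
  exact key _ w rfl

include D in
lemma exists_HeckeKL : Nonempty (HeckeKL cs H) := by
  classical
  choose Cx hC using D.exists_KL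
  have hli : LinearIndependent A Cx := by
    rw [linearIndependent_iff]
    intro c hc
    ext1 w
    refine tri_vanish D.t cs.length id Function.injective_id Cx (fun w => (hC w).2.1)
      (fun w z hz => ((hC w).2.2.2 z hz).eq_or_lt) c 0 ?_ w (Nat.zero_le _)
    intro z _
    rw [hc]; simp
  have hsp : ⊤ ≤ Submodule.span A (Set.range Cx) := by
    have key : ∀ (n : ℕ) (w : W), cs.length w = n → D.t w ∈ Submodule.span A (Set.range Cx) := by
      intro n
      induction n using Nat.strong_induction_on with
      | _ n ih =>
        intro w hw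
        have m1 : Cx w - D.t w ∈ Submodule.span A (Set.range Cx) := by
          rw [← D.t.linearCombination_repr (Cx w - D.t w), linearCombination_apply, Finsupp.sum]
          apply Submodule.sum_mem
          intro z hz
          apply Submodule.smul_mem
          have hz' := mem_support_iff.1 hz
          rw [map_sub, Finsupp.sub_apply, Module.Basis.repr_self] at hz'
          have hzw : z ≠ w := by
            rintro rfl
            rw [(hC z).2.1, single_eq_same, sub_self] at hz'
            exact hz' rfl
          rw [single_eq_of_ne hzw, sub_zero] at hz'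
          rcases ((hC w).2.2.2 z hz').eq_or_lt with h | h
          · exact absurd h hzw
          · exact ih _ (by omega) z rfl
        have := Submodule.sub_mem _ (Submodule.subset_span (s := Set.range Cx) ⟨w, rfl⟩) m1
        simpa using this
    rw [← D.t.span_eq, Submodule.span_le]
    rintro _ ⟨w, rfl⟩
    exact key _ w rfl
  refine ⟨{ D with
    bar := D.barHom
    bar_smul := D.barHom_smul
    bar_T := D.barHom_T
    Cb := Module.Basis.mk hli hsp
    C_bar := ?_
    C_diag := ?_
    C_off := ?_
    C_supp := ?_ }⟩
  · intro w; rw [Module.Basis.mk_apply]; exact (hC w).1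
  · intro w; rw [Module.Basis.mk_apply, ← D.t_repr]; exact (hC w).2.1
  · intro y w h; rw [Module.Basis.mk_apply, ← D.t_repr]; exact (hC w).2.2.1 y h
  · intro y w h
    rw [Module.Basis.mk_apply] at h
    exact (hC w).2.2.2 y (fun h1 => h ((D.t_repr_eq_zero_iff _ _).1 h1))

end Hecke

theorem exists_heckeKL (cs : CoxeterSystem M W) :
    ∃ (H : Type) (_ : Ring H) (_ : Algebra A H), Nonempty (HeckeKL cs H) :=
  ⟨Halg cs, inferInstance, inferInstance, (hecke cs).exists_HeckeKL⟩

end Pool.Agent.Lib.MP_8cdcda_al
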