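import Pool.Agent.Lib.MP_8cdcda_al.KL
import Pool.Agent.Lib.MP_8cdcda_al.Data

/-!
The counterexample in affine F4.
-/

namespace Pool.Agent.Lib.MP_8cdcda_al

open LaurentPolynomial CoxeterSystem

variable {W : Type} [Group W] (cs : CoxeterSystem affineF4 W)

/-! The reflection representation -/

lemma act_liftable : affineF4.IsLiftable (G := Function.End V5) act := by
  intro i j
  funext ⟨a, b, c, d, e⟩
  fin_cases i <;> fin_cases j <;>
    simp [affineF4, pow_succ, end_mul_apply, act, Function.End.one_def] <;> omega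

noncomputable def rho : W →* Function.End V5 := cs.lift ⟨act, act_liftable⟩

lemma rho_wordProd (ω : List (Fin 5)) : rho cs (cs.wordProd ω) (1, 1, 1, 1, 1) = vec ω := by
  induction ω with
  | nil => simp [vec]; rfl
  | cons i ω ih =>
    rw [wordProd_cons, map_mul, end_mul_apply, ih, rho, lift_apply_simple]; rfl

lemma vec_eq {ω ω' : List (Fin 5)} (h : cs.wordProd ω = cs.wordProd ω') : vec ω = vec ω' := by
  rw [← rho_wordProd cs, ← rho_wordProd cs, h]

lemma red_of_check {ω : List (Fin 5)} (h : redCheck ω = true) : cs.IsReduced ω := by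
  induction ω with
  | nil => simp [CoxeterSystem.IsReduced]
  | cons i ω ih =>
    simp only [redCheck, Bool.and_eq_true, List.all_eq_true, List.mem_range, bne_iff_ne] at h
    have h1 := ih h.1
    unfold CoxeterSystem.IsReduced at h1 ⊢
    rw [wordProd_cons, List.length_cons]
    rcases cs.length_simple_mul (cs.wordProd ω) i with h2 | h2
    · omega
    · obtain ⟨j, hj, hj2⟩ := strong_exchange_left cs ω (cs.isReflection_simple i) (by omega)
      rw [← wordProd_cons] at hj2
      exact absurd (vec_eq cs hj2) (h.2 j hj)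

/-! Braid moves -/

lemma braid2 {a b : Fin 5} (h : affineF4.M a b = 2) :
    cs.simple a * cs.simple b = cs.simple b * cs.simple a := by
  have := cs.wordProd_braidWord_eq a b
  have h' : affineF4.M b a = 2 := by rw [← h]; exact affineF4.symmetric b a
  simp only [braidWord] at this
  rw [h, h'] at this
  simpa [alternatingWord, wordProd] using this

lemma braid3 {a b : Fin 5} (h : affineF4.M a b = 3) :
    cs.simple b * (cs.simple a * cs.simple b) = cs.simple a * (cs.simple b * cs.simple a) := by
  have := cs.wordProd_braidWord_eq a b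
  have h' : affineF4.M b a = 3 := by rw [← h]; exact affineF4.symmetric b a
  simp only [braidWord] at this
  rw [h, h'] at this
  simpa [alternatingWord, wordProd] using this

lemma braid4 {a b : Fin 5} (h : affineF4.M a b = 4) :
    cs.simple a * (cs.simple b * (cs.simple a * cs.simple b)) =
      cs.simple b * (cs.simple a * (cs.simple b * cs.simple a)) := by
  have := cs.wordProd_braidWord_eq a b
  have h' : affineF4.M b a = 4 := by rw [← h]; exact affineF4.symmetric b a
  simp only [braidWord] at this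
  rw [h, h'] at this
  simpa [alternatingWord, wordProd] using this

lemma mv_eq (ω : List (Fin 5)) : cs.wordProd (mv ω) = cs.wordProd ω := by
  match ω with
  | [] => rfl
  | [_] => rfl
  | [a, b] =>
    simp only [mv]
    split_ifs with h
    · simp only [wordProd_cons, ← mul_assoc, braid2 cs h]
    · rfl
  | [a, b, c] =>
    simp only [mv]
    split_ifs with h h2
    · simp only [wordProd_cons, ← mul_assoc, braid2 cs h]
    · obtain ⟨h2, rfl⟩ := h2
      have := braid3 cs h2
      simp only [wordProd_cons, ← mul_assoc] at this ⊢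
      rw [this]
    · rfl
  | a :: b :: c :: d :: r =>
    simp only [mv]
    split_ifs with h h2 h3
    · simp only [wordProd_cons, ← mul_assoc, braid2 cs h]
    · obtain ⟨h2, rfl⟩ := h2
      have := braid3 cs h2
      simp only [wordProd_cons, ← mul_assoc] at this ⊢
      rw [this]
    · obtain ⟨h3, rfl, rfl⟩ := h3
      have := braid4 cs h3
      simp only [wordProd_cons, ← mul_assoc] at this ⊢
      rw [this]
    · rfl

lemma moves_eq (ω : List (Fin 5)) (ps : List ℕ) : cs.wordProd (moves ω ps) = cs.wordProd ω := by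
  induction ps generalizing ω with
  | nil => rfl
  | cons p ps ih =>
    have : moves ω (p :: ps) = moves (move ω p) ps := rfl
    rw [this, ih, move, wordProd_append, mv_eq, ← wordProd_append, List.take_append_drop]

/-! The cosets -/

def KK : Set (Fin 5) := {t | t ≠ 0 ∧ t ≠ 4}
def JJ : Set (Fin 5) := {t | t ≠ 4}

noncomputable def aa (i : Fin 24) : W := cs.wordProd (wd i)
noncomputable def wk : W := cs.wordProd wK
noncomputable def uu (i : Fin 24) : W := aa cs i * wk cs

lemma len_aa (i : Fin 24) : cs.length (aa cs i) = (wd i).length := red_of_check cs (chk_red i)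

lemma len_wk : cs.length (wk cs) = 9 := red_of_check cs chk_redK

lemma wk_inP : InP cs KK (wk cs) := ⟨wK, chk_wK_K, rfl⟩

lemma wk_desc {t : Fin 5} (ht : t ∈ KK) : cs.length (cs.simple t * wk cs) < cs.length (wk cs) := by
  obtain ⟨ps, _, h1, h2⟩ := chk_wK t ht.1 ht.2
  rw [len_wk, wk, ← moves_eq cs wK ps]
  match hm : moves wK ps with
  | [] => rw [hm] at h1; simp at h1
  | a :: r =>
    rw [hm] at h1 h2
    simp only [List.head?_cons, Option.some.injEq] at h1
    subst h1
    rw [wordProd_cons, simple_mul_simple_cancel_left]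
    have := cs.length_wordProd_le r
    simp only [List.length_cons] at h2
    omega

lemma aa_up {s : Fin 5} {i : Fin 24} (hs : s ≠ 4) (h : kind s i = 0) :
    cs.simple s * aa cs i = aa cs (nxt s i) ∧
      cs.length (aa cs (nxt s i)) = cs.length (aa cs i) + 1 := by
  obtain ⟨h1, h2⟩ := chk_up s i hs h
  refine ⟨?_, by rw [len_aa, len_aa, h2]⟩
  rw [aa, aa, ← h1, moves_eq, wordProd_cons]

lemma aa_down {s : Fin 5} {i : Fin 24} (hs : s ≠ 4) (h : kind s i = 1) :
    cs.simple s * aa cs i = aa cs (nxt s i) ∧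
      cs.length (aa cs (nxt s i)) + 1 = cs.length (aa cs i) := by
  obtain ⟨h1, h2⟩ := aa_up cs hs (chk_down s i hs h)
  rw [chk_invol] at h1 h2
  exact ⟨by rw [← h1, simple_mul_simple_cancel_left], h2.symm⟩

lemma aa_fix {s : Fin 5} {i : Fin 24} (hs : s ≠ 4) (h : kind s i = 2) :
    cs.simple s * aa cs i = aa cs i * cs.simple (fixl s i) ∧ fixl s i ∈ KK := by
  obtain ⟨h1, h2, h3, _⟩ := chk_fix s i hs h
  refine ⟨?_, h2, h3⟩
  rw [aa, ← wordProd_cons, ← moves_eq cs _ (cert s i), h1, wordProd_append]
  simp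

lemma aa_min (i : Fin 24) : IsMinC cs KK (aa cs i) := by
  induction i using WellFoundedLT.induction with
  | _ i ih =>
    by_cases hi : i = 0
    · subst hi
      rw [aa, chk_wd_zero, wordProd_nil]
      exact IsMinC.one _
    · obtain ⟨h1, h2, h3, h4, h5, _⟩ := chk_par i hi
      have e : aa cs i = cs.simple (par i).1 * aa cs (par i).2 := by
        rw [aa, h3, wordProd_cons]; rfl
      have hl : cs.length (aa cs (par i).2) < cs.length (cs.simple (par i).1 * aa cs (par i).2) := by
        rw [← e, len_aa, len_aa, h3]; simp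
      rcases IsMinC.up (ih _ h1) hl with h | ⟨t, ht, h⟩
      · rwa [e]
      · exfalso
        apply h5 t ht.1 ht.2
        apply vec_eq cs
        rw [wordProd_append]
        rw [← e] at h
        simpa [aa] using h

lemma len_uu (i : Fin 24) : cs.length (uu cs i) = (wd i).length + 9 := by
  rw [uu, (aa_min cs i).length_mul (wk_inP cs), len_aa, len_wk]

lemma uu_inP (i : Fin 24) : InP cs JJ (uu cs i) :=
  InP.mul ⟨wd i, chk_wd_J i, rfl⟩ ⟨wK, fun s hs => (chk_wK_K s hs).2, rfl⟩

lemma uu_up {s : Fin 5} {i : Fin 24} (hs : s ≠ 4) (h : kind s i = 0) :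
    cs.simple s * uu cs i = uu cs (nxt s i) ∧
      cs.length (uu cs i) < cs.length (cs.simple s * uu cs i) := by
  obtain ⟨h1, h2⟩ := aa_up cs hs h
  have e : cs.simple s * uu cs i = uu cs (nxt s i) := by rw [uu, ← mul_assoc, h1, uu]
  refine ⟨e, ?_⟩
  rw [e, len_uu, len_uu, ← len_aa cs, ← len_aa cs, h2]; omega

lemma uu_desc {s : Fin 5} {i : Fin 24} (hs : s ≠ 4) (h : kind s i ≠ 0) :
    cs.length (cs.simple s * uu cs i) < cs.length (uu cs i) := by
  rcases chk_kind s i with h0 | h0 | h0
  · exact absurd h0 h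
  · obtain ⟨h1, h2⟩ := aa_down cs hs h0
    have e : cs.simple s * uu cs i = uu cs (nxt s i) := by rw [uu, ← mul_assoc, h1, uu]
    rw [e, len_uu, len_uu, ← len_aa cs, ← len_aa cs]; omega
  · obtain ⟨h1, h2⟩ := aa_fix cs hs h0
    rw [uu, ← mul_assoc, h1, mul_assoc, (aa_min cs i).length_mul (wk_inP cs),
      (aa_min cs i).length_mul ((InP.simple h2).mul (wk_inP cs))]
    have := wk_desc cs h2
    omega

lemma dem_uu (ω : List (Fin 5)) (hω : ∀ s ∈ ω, s ≠ 4) (i : Fin 24) :
    dem cs ω (uu cs i) = uu cs (demIdx ω i) := by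
  induction ω with
  | nil => rfl
  | cons s ω ih =>
    have ih' := ih (fun t ht => hω t (List.mem_cons_of_mem _ ht))
    have hs := hω s List.mem_cons_self
    unfold dem demIdx
    rw [ih']
    by_cases h : kind s (demIdx ω i) = 0
    · rw [if_pos h, if_pos (uu_up cs hs h).2, (uu_up cs hs h).1]
    · have := uu_desc cs hs h
      rw [if_neg h, if_neg (by omega)]

/-! Polynomials -/

noncomputable def evP : List ℤ → A
  | [] => 0
  | a :: p => C a + T (-1) * evP p

lemma evP_padd (p q : List ℤ) : evP (padd p q) = evP p + evP q := by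
  induction p generalizing q with
  | nil => simp [padd, evP]
  | cons a p ih =>
    cases q with
    | nil => simp [padd, evP]
    | cons b q => simp only [padd, evP, ih, map_add]; ring

lemma evP_psmul (c : ℤ) (p : List ℤ) : evP (psmul c p) = C c * evP p := by
  induction p with
  | nil => simp [psmul, evP]
  | cons a p ih =>
    have : psmul c (a :: p) = (c * a) :: psmul c p := rfl
    rw [this, evP, evP, ih, map_mul]; ring

lemma evP_pzero {p : List ℤ} (h : pzero p = true) : evP p = 0 := by
  induction p with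
  | nil => rfl
  | cons a p ih =>
    simp only [pzero, List.all_cons, Bool.and_eq_true, beq_iff_eq] at h
    rw [evP, h.1, ih h.2]; simp

lemma evP_zero_cons (p : List ℤ) : evP (0 :: p) = T (-1) * evP p := by simp [evP]

lemma evP_deg (p : List ℤ) : DegLE (evP p) 0 := by
  induction p with
  | nil => exact DegLE.zero _
  | cons a p ih => exact (DegLE.C a).add (((DegLE.T (-1)).mul ih).mono (by omega))

lemma evP_deg' {p : List ℤ} (h : p.headD 0 = 0) : DegLE (evP p) (-1) := by
  cases p with
  | nil => exact DegLE.zero _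
  | cons a p =>
    simp only [List.headD_cons] at h
    subst h
    rw [evP_zero_cons]
    simpa using (DegLE.T (-1)).mul (evP_deg p)

/-! The parabolic module -/

variable {cs} {H : Type} [Ring H] [Algebra A H] (D : HeckeKL cs H)

noncomputable def mm (i : Fin 24) : H := D.t (aa cs i) * D.Cb (wk cs)

noncomputable def cc (i : Fin 24) : H := ∑ j, evP (mP i j) • mm D j

lemma c_mul_mm {s : Fin 5} (hs : s ≠ 4) (j : Fin 24) :
    D.c s * mm D j = (if kind s j = 2 then (0 : A) else 1) • mm D (nxt s j) +
      (if kind s j = 2 then T 1 + T (-1) else if kind s j = 0 then T (-1) else T 1 : A) •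
        mm D j := by
  rcases chk_kind s j with h0 | h0 | h0
  · obtain ⟨h1, h2⟩ := aa_up cs hs h0
    rw [mm, ← mul_assoc, D.c_mul_up s _ (by rw [h1]; omega), h1, add_mul, smul_mul_assoc, h0]
    simp [mm]
  · obtain ⟨h1, h2⟩ := aa_down cs hs h0
    rw [mm, ← mul_assoc, D.c_mul_down s _ (by rw [h1]; omega), h1, add_mul, smul_mul_assoc, h0]
    simp [mm]
  · obtain ⟨h1, h2⟩ := aa_fix cs hs h0
    have h3 := (aa_min cs j).length_mul (InP.simple h2)
    rw [mm, ← mul_assoc, D.c_mul_up s _ (by rw [h1, h3, length_simple]; omega), h1, add_mul,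
      smul_mul_assoc, ← D.t_mul_of_length h3, mul_assoc, D.t_mul_C _ _ (wk_desc cs h2),
      mul_smul_comm, h0]
    simp [add_smul]

lemma c_mul_cc {s : Fin 5} (hs : s ≠ 4) (i : Fin 24) :
    D.c s * cc D i = ∑ j, (T 1 * evP (lhsP s i j)) • mm D j := by
  rw [cc, Finset.mul_sum]
  simp only [mul_smul_comm, c_mul_mm D hs, smul_add, smul_smul]
  rw [Finset.sum_add_distrib]
  have hinv : Function.Involutive (nxt s) := chk_invol s
  rw [← Equiv.sum_comp hinv.toPerm]
  simp only [Function.Involutive.coe_toPerm, chk_invol, chk_kind2]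
  rw [← Finset.sum_add_distrib]
  apply Finset.sum_congr rfl
  intro j _
  rw [← add_smul]
  congr 1
  have e1 : (T 1 * T (-1) : A) = 1 := by rw [T_mul_T]; simp
  unfold lhsP
  split_ifs
  · rw [evP_padd, evP_zero_cons, evP_zero_cons]
    linear_combination (-(T (-1)) * evP (mP i j)) * e1
  · rw [evP_padd, evP_zero_cons, evP_zero_cons, evP_zero_cons]
    linear_combination (-(T (-1)) * evP (mP i j) - evP (mP i (nxt s j))) * e1
  · rw [evP_padd, evP_zero_cons]
    linear_combination (- evP (mP i (nxt s j))) * e1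

lemma sum_rhs (l : List (Fin 24 × ℤ)) :
    (l.map fun p => (C p.2 : A) • cc D p.1).sum = ∑ j, evP (rhsP l j) • mm D j := by
  induction l with
  | nil => simp [rhsP, evP]
  | cons p l ih =>
    rw [List.map_cons, List.sum_cons, ih, cc, Finset.smul_sum, ← Finset.sum_add_distrib]
    apply Finset.sum_congr rfl
    intro j _
    have : rhsP (p :: l) j = padd (psmul p.2 (mP p.1 j)) (rhsP l j) := rfl
    rw [this, evP_padd, evP_psmul, add_smul, smul_smul]

lemma c_mul_cc_up {s : Fin 5} (hs : s ≠ 4) {i : Fin 24} (h : kind s i = 0) :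
    D.c s * cc D i = ((RR s i).map fun p => (C p.2 : A) • cc D p.1).sum := by
  rw [c_mul_cc D hs, sum_rhs]
  apply Finset.sum_congr rfl
  intro j _
  congr 1
  have h1 := evP_pzero (chk_mul s i j hs h)
  rw [evP_padd, evP_psmul, evP_zero_cons, map_neg, map_one] at h1
  have e1 : (T 1 * T (-1) : A) = 1 := by rw [T_mul_T]; simp
  linear_combination (T 1) * h1 + (evP (rhsP (RR s i) j)) * e1

lemma cc_zero : cc D 0 = D.Cb (wk cs) := by
  rw [cc, Finset.sum_eq_single 0]
  · rw [chk_m_diag, mm, aa, chk_wd_zero, wordProd_nil, D.t_one]; simp [evP]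
  · intro j _ hj; rw [chk_m_zero j hj]; simp [evP]
  · simp

lemma bar_list (l : List (Fin 24 × ℤ)) (h : ∀ p ∈ l, D.bar (cc D p.1) = cc D p.1) :
    D.bar (l.map fun p => (C p.2 : A) • cc D p.1).sum =
      (l.map fun p => (C p.2 : A) • cc D p.1).sum := by
  induction l with
  | nil => simp
  | cons p l ih =>
    rw [List.map_cons, List.sum_cons, map_add, ih (fun q hq => h q (List.mem_cons_of_mem _ hq)),
      D.bar_smul, invert_C, h p List.mem_cons_self]

lemma bar_cc (i : Fin 24) : D.bar (cc D i) = cc D i := by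
  induction i using WellFoundedLT.induction with
  | _ i ih =>
    by_cases hi : i = 0
    · subst hi; rw [cc_zero, D.C_bar]
    · obtain ⟨h1, h2, _, h4, _, h6, h7⟩ := chk_par i hi
      have e := c_mul_cc_up D h2 h4
      match hm : RR (par i).1 (par i).2 with
      | [] => rw [hm] at h6; simp at h6
      | p :: l =>
        rw [hm] at h6 h7 e
        simp only [List.head?_cons, Option.some.injEq] at h6
        subst h6
        simp only [List.tail_cons] at h7
        rw [List.map_cons, List.sum_cons, map_one, one_smul] at e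
        have e2 := eq_sub_of_add_eq e.symm
        simp only at e2
        rw [e2, map_sub, map_mul, D.bar_c', ih _ h1, bar_list D l (fun q hq => ih _ (h7 q hq))]

lemma cc_eq (i : Fin 24) : cc D i = D.Cb (uu cs i) := by
  classical
  apply D.eq_C _ _ (bar_cc D i)
  intro y
  have h1 : ∀ j, DegLE (D.t.repr (mm D j - D.t (uu cs j)) y) (-1) :=
    fun j => D.t_mul_C_deg (aa_min cs j) (wk_inP cs) y
  have h2 : ∀ j, DegLE (D.t.repr (mm D j) y) 0 := by
    intro j
    have : mm D j = (mm D j - D.t (uu cs j)) + D.t (uu cs j) := by abel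
    rw [this, map_add, Finsupp.add_apply]
    apply ((h1 j).mono (by omega)).add
    rw [Module.Basis.repr_self, Finsupp.single_apply]
    split_ifs
    · exact DegLE.one
    · exact DegLE.zero _
  have e : cc D i - D.t (uu cs i) =
      (mm D i - D.t (uu cs i)) + ∑ j ∈ Finset.univ.erase i, evP (mP i j) • mm D j := by
    rw [cc, ← Finset.add_sum_erase _ _ (Finset.mem_univ i), chk_m_diag]
    simp only [evP, map_one, mul_zero, add_zero, one_smul]
    abel
  rw [e, map_add, Finsupp.add_apply]
  apply (h1 i).add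
  rw [map_sum, Finsupp.finsetSum_apply]
  apply DegLE.sum
  intro j hj
  rw [map_smul, Finsupp.smul_apply, smul_eq_mul]
  simpa using (evP_deg' (chk_m_off i j (Finset.mem_erase.1 hj).1)).mul (h2 j)

lemma shortest_of_closed (S : List (Fin 24)) (hS : ∀ s, ∀ i ∈ S, ∀ p ∈ RR s i, p.1 ∈ S)
    (i0 : Fin 24) (h0 : i0 ∈ S) (hlen : ∀ i ∈ S, (wd i0).length ≤ (wd i).length) :
    D.Shortest (uu cs i0) := by
  intro y hy
  let I : Set W := {u | ∃ i ∈ S, u = uu cs i}
  have hI : ∀ u ∈ I, InP cs JJ u := by
    rintro _ ⟨i, _, rfl⟩; exact uu_inP cs i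
  suffices hst : ∀ j ∈ JJ, ∀ u ∈ I,
      D.t (cs.simple j) * D.Cb u ∈ Submodule.span A (D.Cb '' I) by
    obtain ⟨a, u, hu, ha, rfl⟩ := D.induction_cells (J := JJ) I hI hst ⟨i0, h0, rfl⟩ hy.1
    rw [ha.length_mul (hI u hu)]
    obtain ⟨i, hi, rfl⟩ := hu
    rw [len_uu, len_uu]
    have := hlen i hi
    omega
  · rintro s hs _ ⟨i, hi, rfl⟩
    have hm : D.Cb (uu cs i) ∈ Submodule.span A (D.Cb '' I) :=
      Submodule.subset_span ⟨_, ⟨i, hi, rfl⟩, rfl⟩
    by_cases hk : kind s i = 0
    · have e : D.t (cs.simple s) * D.Cb (uu cs i) =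
          D.c s * D.Cb (uu cs i) - (T (-1) : A) • D.Cb (uu cs i) := by
        rw [Hecke.c, add_mul, smul_mul_assoc, one_mul]; abel
      rw [e]
      refine Submodule.sub_mem _ ?_ (Submodule.smul_mem _ _ hm)
      rw [← cc_eq, c_mul_cc_up D hs hk]
      apply list_sum_mem
      intro x hx
      obtain ⟨p, hp, rfl⟩ := List.mem_map.1 hx
      apply Submodule.smul_mem
      rw [cc_eq]
      exact Submodule.subset_span ⟨_, ⟨p.1, hS s i hi p hp, rfl⟩, rfl⟩
    · rw [D.t_mul_C s _ (uu_desc cs hs hk)]
      exact Submodule.smul_mem _ _ hm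

lemma isLambda_uu (i : Fin 24) :
    D.IsLambda (uu cs i)⁻¹ (uu cs i) (uu cs (demIdx (wd i ++ wK).reverse i)) := by
  have e : uu cs i = cs.wordProd (wd i ++ wK) := by rw [wordProd_append]; rfl
  have hr : cs.IsReduced (wd i ++ wK) := by
    unfold CoxeterSystem.IsReduced
    rw [← e, len_uu, List.length_append]; rfl
  have h := D.isLambda_dem hr.reverse (uu cs i)
  rw [wordProd_reverse, ← e, dem_uu] at h
  · exact h
  · intro s hs
    rcases List.mem_append.1 (List.mem_reverse.1 hs) with h | h
    · exact chk_wd_J i s h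
    · exact (chk_wK_K s h).2

/-- two elements, both shortest in their left cells, with `λ(x⁻¹,x) = d` and `λ(d⁻¹,d) ≠ d` -/
theorem counterexample : ∃ x d : W, D.Shortest x ∧ D.Shortest d ∧ D.IsLambda x⁻¹ x d ∧
    ¬ D.IsLambda d⁻¹ d d := by
  refine ⟨uu cs 6, uu cs 17, shortest_of_closed D S1 chk_S1 6 (by decide) chk_S1_len,
    shortest_of_closed D S2 chk_S2 17 (by decide) chk_S2_len, ?_, ?_⟩
  · have := isLambda_uu D 6
    rwa [chk_dem1] at this
  · intro h
    have h1 := isLambda_uu D 17
    rw [chk_dem2] at h1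
    have h2 := (h.2 _ h1.1).length_le
    rw [len_uu, len_uu] at h2
    have := chk_len
    omega

end Pool.Agent.Lib.MP_8cdcda_al
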