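import Pool.Agent.Lib.MP_8cdcda_al.Exchange
import Pool.Agent.Lib.MP_8cdcda_al.Deg

/-!
Basic multiplication rules in a Hecke algebra, the normalised basis, the Demazure product.
-/

namespace Pool.Agent.Lib.MP_8cdcda_al

open LaurentPolynomial CoxeterSystem

variable {B W : Type} [Group W] {M : CoxeterMatrix B} {cs : CoxeterSystem M W}
variable {H : Type} [Ring H] [Algebra A H]

lemma T_mul_T (m n : ℤ) : (T m * T n : A) = T (m + n) := (T_add m n).symm

namespace Hecke

variable (D : Hecke cs H)

lemma T_sq (i : B) : D.Tb (cs.simple i) * D.Tb (cs.simple i) =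
    (T 2 - 1 : A) • D.Tb (cs.simple i) + (T 2 : A) • (1 : H) := by
  have h := D.T_quad i
  rw [Algebra.algebraMap_eq_smul_one, sub_mul, mul_add, mul_add, smul_mul_assoc, smul_mul_assoc,
    one_mul, mul_one, mul_one] at h
  rw [sub_smul, one_smul]
  linear_combination (norm := module) h

lemma T_mul_down (i : B) (w : W) (h : cs.length (cs.simple i * w) < cs.length w) :
    D.Tb (cs.simple i) * D.Tb w =
      (T 2 : A) • D.Tb (cs.simple i * w) + (T 2 - 1 : A) • D.Tb w := by
  have h1 := D.T_mul i (cs.simple i * w) (by rwa [simple_mul_simple_cancel_left])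
  rw [simple_mul_simple_cancel_left] at h1
  rw [← h1, ← mul_assoc, T_sq, add_mul, smul_mul_assoc, smul_mul_assoc, one_mul, add_comm]

lemma T_word_mul (ω : List B) (y : W)
    (h : cs.length (cs.wordProd ω * y) = ω.length + cs.length y) :
    (ω.map fun i => D.Tb (cs.simple i)).prod * D.Tb y = D.Tb (cs.wordProd ω * y) := by
  induction ω with
  | nil => simp
  | cons i ω ih =>
    rw [wordProd_cons, mul_assoc, List.length_cons] at h
    have h1 := cs.length_simple_mul (cs.wordProd ω * y) i
    have h2 := cs.length_mul_le (cs.wordProd ω) y
    have h3 := cs.length_wordProd_le ω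
    rw [List.map_cons, List.prod_cons, mul_assoc, ih (by omega), D.T_mul i _ (by omega),
      wordProd_cons, mul_assoc]

lemma T_word {ω : List B} (h : cs.IsReduced ω) :
    D.Tb (cs.wordProd ω) = (ω.map fun i => D.Tb (cs.simple i)).prod := by
  have := D.T_word_mul ω 1 (by simpa using h.eq)
  rw [D.T_one, mul_one, mul_one] at this
  exact this.symm

lemma T_mul_of_length {x y : W} (h : cs.length (x * y) = cs.length x + cs.length y) :
    D.Tb x * D.Tb y = D.Tb (x * y) := by
  obtain ⟨ω, hω, rfl⟩ := cs.exists_isReduced x
  rw [D.T_word hω, D.T_word_mul ω y (by rw [h, hω.eq])]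

open Classical in
lemma repr_T_mul (i : B) (h : H) (z : W) :
    D.Tb.repr (D.Tb (cs.simple i) * h) z =
      if cs.length (cs.simple i * z) < cs.length z then
        D.Tb.repr h (cs.simple i * z) + (T 2 - 1) * D.Tb.repr h z
      else T 2 * D.Tb.repr h (cs.simple i * z) := by
  have key : ∀ w : W, D.Tb.repr (D.Tb (cs.simple i) * D.Tb w) z =
      if cs.length (cs.simple i * z) < cs.length z then
        D.Tb.repr (D.Tb w) (cs.simple i * z) + (T 2 - 1) * D.Tb.repr (D.Tb w) z
      else T 2 * D.Tb.repr (D.Tb w) (cs.simple i * z) := by
    intro w
    have hiff : cs.simple i * w = z ↔ w = cs.simple i * z := by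
      constructor
      · rintro rfl; rw [simple_mul_simple_cancel_left]
      · rintro rfl; rw [simple_mul_simple_cancel_left]
    rcases lt_or_gt_of_ne (cs.length_simple_mul_ne w i) with h1 | h1
    · rw [D.T_mul_down i w h1]
      simp only [map_add, map_smul, Module.Basis.repr_self, Finsupp.add_apply, Finsupp.smul_apply,
        Finsupp.single_apply, smul_eq_mul, hiff]
      by_cases h2 : w = cs.simple i * z
      · have h3 : w ≠ z := by
          intro h3
          have := cs.length_simple_mul_ne z i
          rw [← h2, h3] at this
          exact this rfl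
        have h4 : ¬ cs.length (cs.simple i * z) < cs.length z := by
          rw [h2, simple_mul_simple_cancel_left] at h1
          omega
        simp [h2.symm, h3]
        intro h5; rw [← h2] at h4; exact absurd h5 h4
      · by_cases h3 : w = z
        · subst h3; simp [h2, h1]
        · simp [h2, h3]
    · rw [D.T_mul i w h1]
      simp only [Module.Basis.repr_self, Finsupp.single_apply, hiff]
      by_cases h2 : w = cs.simple i * z
      · have h3 : w ≠ z := by
          intro h3
          have := cs.length_simple_mul_ne z i
          rw [← h2, h3] at this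
          exact this rfl
        have h4 : cs.length (cs.simple i * z) < cs.length z := by
          rw [h2, simple_mul_simple_cancel_left] at h1
          omega
        rw [if_pos h2, if_pos h4, if_neg h3]; simp
      · by_cases h3 : w = z
        · subst h3
          have h4 : ¬ cs.length (cs.simple i * w) < cs.length w := by omega
          simp [h2, h4]
        · simp [h2, h3]
  rw [← D.Tb.linearCombination_repr h]
  generalize D.Tb.repr h = c
  induction c using Finsupp.induction_linear with
  | zero => simp
  | add f g hf hg =>
    simp only [map_add, mul_add, Finsupp.add_apply, hf, hg]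
    split_ifs <;> ring
  | single w a =>
    simp only [Finsupp.linearCombination_single, mul_smul_comm, map_smul, Finsupp.smul_apply, key,
      smul_eq_mul]
    split_ifs <;> ring

/-! The Demazure product -/

open Classical in
/-- iterated Demazure product of a word with an element -/
noncomputable def _root_.Pool.Agent.Lib.MP_8cdcda_al.dem (cs : CoxeterSystem M W) :
    List B → W → W
  | [], y => y
  | i :: ω, y =>
    if cs.length (dem cs ω y) < cs.length (cs.simple i * dem cs ω y) then
      cs.simple i * dem cs ω y else dem cs ω y

lemma dem_bruhat (ω : List B) (y z : W)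
    (h : D.Tb.repr ((ω.map fun i => D.Tb (cs.simple i)).prod * D.Tb y) z ≠ 0) :
    BruhatLE cs z (dem cs ω y) := by
  classical
  induction ω generalizing z with
  | nil =>
    simp only [List.map_nil, List.prod_nil, one_mul, Module.Basis.repr_self, ne_eq,
      Finsupp.single_apply, ite_eq_right_iff, not_forall] at h
    obtain ⟨rfl, _⟩ := h
    exact BruhatLE.refl _
  | cons i ω ih =>
    rw [List.map_cons, List.prod_cons, mul_assoc, repr_T_mul] at h
    have h1 : BruhatLE cs z (dem cs ω y) ∨ BruhatLE cs (cs.simple i * z) (dem cs ω y) := by
      by_contra hn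
      push Not at hn
      have h2 := mt (ih z) hn.1
      have h3 := mt (ih (cs.simple i * z)) hn.2
      push Not at h2 h3
      rw [h2, h3] at h
      simp at h
    unfold dem
    split_ifs with h2
    · rcases h1 with h1 | h1
      · exact (h1.lift_up h2).1
      · have := (h1.lift_up h2).2
        rwa [simple_mul_simple_cancel_left] at this
    · have h3 : cs.length (cs.simple i * dem cs ω y) < cs.length (dem cs ω y) :=
        lt_of_le_of_ne (not_lt.1 h2) (cs.length_simple_mul_ne _ i)
      rcases h1 with h1 | h1
      · exact h1
      · have := h1.lift_down h3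
        rwa [simple_mul_simple_cancel_left] at this

lemma dem_coeff (ω : List B) (y : W) :
    (∀ z k, k < 0 →
      (D.Tb.repr ((ω.map fun i => D.Tb (cs.simple i)).prod * D.Tb y) z).coeff k = 0) ∧
    (∀ z, (D.Tb.repr ((ω.map fun i => D.Tb (cs.simple i)).prod * D.Tb y) z).coeff 0 ≠ 0 ↔
      z = dem cs ω y) := by
  classical
  induction ω with
  | nil =>
    simp only [List.map_nil, List.prod_nil, one_mul, Module.Basis.repr_self,
      Finsupp.single_apply, dem]
    constructor
    · intro z k hk
      split_ifs
      · rw [coeff_one', if_neg (by omega)]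
      · simp
    · intro z
      split_ifs with h
      · simp [h]
      · simp [Ne.symm h]
  | cons i ω ih =>
    obtain ⟨ih1, ih2⟩ := ih
    rw [List.map_cons, List.prod_cons, mul_assoc]
    set h := (ω.map fun i => D.Tb (cs.simple i)).prod * D.Tb y
    constructor
    · intro z k hk
      rw [repr_T_mul]
      split_ifs
      · rw [coeff_add', sub_mul, one_mul, coeff_sub', coeff_T_mul, ih1 _ _ hk, ih1 _ _ hk,
          ih1 _ _ (by omega)]
        simp
      · rw [coeff_T_mul, ih1 _ _ (by omega)]
    · intro z
      rw [repr_T_mul]
      unfold dem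
      have hne : ∀ u : W, cs.simple i * u ≠ u := by
        intro u hu
        have := cs.length_simple_mul_ne u i
        rw [hu] at this
        exact this rfl
      by_cases h1 : cs.length (cs.simple i * z) < cs.length z
      · rw [if_pos h1, coeff_add', sub_mul, one_mul, coeff_sub', coeff_T_mul,
          ih1 _ (0 - 2) (by omega), zero_sub]
        by_cases h2 : z = dem cs ω y
        · have h3 : (D.Tb.repr h (cs.simple i * z)).coeff 0 = 0 := by
            by_contra h3
            have := (ih2 _).1 h3
            rw [← h2] at this
            exact hne z this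
          rw [h3, zero_add, neg_ne_zero, ih2, ← h2, if_neg (by omega)]
        · have h3 : (D.Tb.repr h z).coeff 0 = 0 := by
            by_contra h3
            exact h2 ((ih2 _).1 h3)
          rw [h3, neg_zero, add_zero, ih2]
          constructor
          · intro h4
            rw [← h4, simple_mul_simple_cancel_left, if_pos h1]
          · intro h4
            split_ifs at h4 with h5
            · rw [h4, simple_mul_simple_cancel_left]
            · exact absurd h4 h2
      · rw [if_neg h1, coeff_T_mul, ih1 _ (0 - 2) (by omega)]
        simp only [ne_eq, not_true_eq_false, false_iff]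
        intro h2
        split_ifs at h2 with h3
        · rw [h2, simple_mul_simple_cancel_left] at h1
          exact h1 h3
        · rw [← h2] at h3
          have := cs.length_simple_mul_ne z i
          omega

lemma dem_ne_zero (ω : List B) (y : W) :
    D.Tb.repr ((ω.map fun i => D.Tb (cs.simple i)).prod * D.Tb y) (dem cs ω y) ≠ 0 := by
  intro h
  have := ((D.dem_coeff ω y).2 (dem cs ω y)).2 rfl
  rw [h] at this
  simp at this

/-! The normalised basis -/

/-- the unit `v^{-n}` -/
noncomputable def _root_.Pool.Agent.Lib.MP_8cdcda_al.uT (n : ℤ) : Aˣ :=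
  ⟨T (-n), T n, by rw [T_mul_T]; simp, by rw [T_mul_T]; simp⟩

/-- the normalised standard basis `v^{-ℓ(w)} T_w` -/
noncomputable def t : Module.Basis W A H := D.Tb.unitsSMul fun w => uT (cs.length w)

lemma t_apply (w : W) : D.t w = (T (-(cs.length w : ℤ)) : A) • D.Tb w := by
  unfold t; rw [Module.Basis.unitsSMul_apply]; rfl

lemma t_repr (h : H) (z : W) : D.t.repr h z = T (cs.length z) * D.Tb.repr h z := by
  unfold t; rw [Module.Basis.repr_unitsSMul]; rfl

lemma t_repr_eq_zero_iff (h : H) (z : W) : D.t.repr h z = 0 ↔ D.Tb.repr h z = 0 := by
  rw [t_repr]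
  exact (isUnit_T _).mul_right_eq_zero

lemma t_one : D.t 1 = 1 := by rw [t_apply, D.T_one]; simp

lemma t_mul_of_length {x y : W} (h : cs.length (x * y) = cs.length x + cs.length y) :
    D.t x * D.t y = D.t (x * y) := by
  rw [t_apply, t_apply, t_apply, smul_mul_assoc, mul_smul_comm, smul_smul, T_mul_T,
    D.T_mul_of_length h, h]
  congr 2
  push_cast; ring

lemma t_mul_up (i : B) (w : W) (h : cs.length w < cs.length (cs.simple i * w)) :
    D.t (cs.simple i) * D.t w = D.t (cs.simple i * w) := by
  apply D.t_mul_of_length
  have := cs.length_simple_mul w i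
  rw [length_simple]; omega

lemma t_mul_down (i : B) (w : W) (h : cs.length (cs.simple i * w) < cs.length w) :
    D.t (cs.simple i) * D.t w = D.t (cs.simple i * w) + (T 1 - T (-1) : A) • D.t w := by
  have h1 : (cs.length w : ℤ) = cs.length (cs.simple i * w) + 1 := by
    have := cs.length_simple_mul w i
    omega
  rw [t_apply, t_apply, t_apply, smul_mul_assoc, mul_smul_comm, smul_smul, D.T_mul_down i w h,
    smul_add, smul_smul, smul_smul, smul_smul, length_simple, h1]
  congr 2
  · simp only [T_mul_T]; congr 1; push_cast; ring
  · simp only [mul_sub, sub_mul, T_mul_T, mul_one]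
    congr 2
    push_cast; ring

/-- the element `C_s = v⁻¹ T_s + v⁻¹` -/
noncomputable def c (i : B) : H := D.t (cs.simple i) + (T (-1) : A) • (1 : H)

lemma c_mul_up (i : B) (w : W) (h : cs.length w < cs.length (cs.simple i * w)) :
    D.c i * D.t w = D.t (cs.simple i * w) + (T (-1) : A) • D.t w := by
  rw [c, add_mul, D.t_mul_up i w h, smul_mul_assoc, one_mul]

lemma c_mul_down (i : B) (w : W) (h : cs.length (cs.simple i * w) < cs.length w) :
    D.c i * D.t w = D.t (cs.simple i * w) + (T 1 : A) • D.t w := by
  rw [c, add_mul, D.t_mul_down i w h, smul_mul_assoc, one_mul, sub_smul]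
  abel

lemma t_mul_c (i : B) : D.t (cs.simple i) * D.c i = (T 1 : A) • D.c i := by
  rw [c, mul_add, D.t_mul_down i (cs.simple i) (by simp), mul_smul_comm, mul_one,
    simple_mul_simple_self, t_one, smul_add, smul_smul, T_mul_T, sub_smul]
  simp only [add_neg_cancel, T_zero, one_smul]
  abel

open Classical in
lemma repr_c_mul (i : B) (h : H) (z : W) :
    D.t.repr (D.c i * h) z = D.t.repr h (cs.simple i * z) +
      (if cs.length (cs.simple i * z) < cs.length z then T 1 else T (-1)) * D.t.repr h z := by
  have key : ∀ w : W, D.t.repr (D.c i * D.t w) z = D.t.repr (D.t w) (cs.simple i * z) +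
      (if cs.length (cs.simple i * z) < cs.length z then T 1 else T (-1)) *
        D.t.repr (D.t w) z := by
    intro w
    have hiff : cs.simple i * w = z ↔ w = cs.simple i * z := by
      constructor
      · rintro rfl; rw [simple_mul_simple_cancel_left]
      · rintro rfl; rw [simple_mul_simple_cancel_left]
    rcases lt_or_gt_of_ne (cs.length_simple_mul_ne w i) with h1 | h1
    · rw [D.c_mul_down i w h1]
      simp only [map_add, map_smul, Module.Basis.repr_self, Finsupp.add_apply, Finsupp.smul_apply,
        Finsupp.single_apply, smul_eq_mul, hiff]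
      by_cases h3 : w = z
      · subst h3; simp [h1]
      · simp [h3]
    · rw [D.c_mul_up i w h1]
      simp only [map_add, map_smul, Module.Basis.repr_self, Finsupp.add_apply, Finsupp.smul_apply,
        Finsupp.single_apply, smul_eq_mul, hiff]
      by_cases h3 : w = z
      · subst h3
        have h4 : ¬ cs.length (cs.simple i * w) < cs.length w := by omega
        simp [h4]
      · simp [h3]
  rw [← D.t.linearCombination_repr h]
  generalize D.t.repr h = c
  induction c using Finsupp.induction_linear with
  | zero => simp
  | add f g hf hg =>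
    simp only [map_add, mul_add, Finsupp.add_apply, hf, hg]
    ring
  | single w a =>
    simp only [Finsupp.linearCombination_single, mul_smul_comm, map_smul, Finsupp.smul_apply, key,
      smul_eq_mul]
    ring

/-- an `A`-submodule stable under the generators is a left ideal -/
lemma mul_mem_of_stable (N : Submodule A H) (hN : ∀ i, ∀ x ∈ N, D.t (cs.simple i) * x ∈ N)
    (h : H) {x : H} (hx : x ∈ N) : h * x ∈ N := by
  have key : ∀ (n : ℕ) (w : W), cs.length w = n → D.t w * x ∈ N := by
    intro n
    induction n with
    | zero =>
      intro w hw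
      rw [cs.length_eq_zero_iff.1 hw, t_one, one_mul]; exact hx
    | succ n ih =>
      intro w hw
      obtain ⟨i, hi⟩ := cs.exists_leftDescent_of_ne_one (w := w) (by rintro rfl; simp at hw)
      have h1 := cs.length_simple_mul w i
      unfold IsLeftDescent at hi
      have h2 := D.t_mul_up i (cs.simple i * w) (by rwa [simple_mul_simple_cancel_left])
      rw [simple_mul_simple_cancel_left] at h2
      rw [← h2, mul_assoc]
      exact hN i _ (ih _ (by omega))
  rw [← D.t.linearCombination_repr h]
  generalize D.t.repr h = c
  induction c using Finsupp.induction_linear with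
  | zero => simp
  | add f g hf hg => rw [map_add, add_mul]; exact N.add_mem hf hg
  | single w a =>
    rw [Finsupp.linearCombination_single, smul_mul_assoc]
    exact N.smul_mem _ (key _ w rfl)

end Hecke

end Pool.Agent.Lib.MP_8cdcda_al
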