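import Pool.Agent.Lib.MP_8cdcda_al.HeckeBasic

/-!
Kazhdan-Lusztig theory: uniqueness, the key lemma on based left ideals, induction of cells.
-/

namespace Pool.Agent.Lib.MP_8cdcda_al

open LaurentPolynomial CoxeterSystem

variable {B W : Type} [Group W] {M : CoxeterMatrix B} {cs : CoxeterSystem M W}
variable {H : Type} [Ring H] [Algebra A H]

lemma Hecke.bar_c (D : Hecke cs H) (bar : H →+* H)
    (bar_smul : ∀ (a : A) (h : H), bar (a • h) = invert a • bar h)
    (bar_T : ∀ w : W, bar (D.Tb w) * D.Tb w⁻¹ = 1) (i : B) : bar (D.c i) = D.c i := by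
  have h1 : bar (D.t (cs.simple i)) * D.t (cs.simple i) = 1 := by
    have := bar_T (cs.simple i)
    rw [inv_simple] at this
    rw [D.t_apply, bar_smul, invert_T, smul_mul_assoc, mul_smul_comm, smul_smul, T_mul_T, this]
    simp
  have h2 : D.t (cs.simple i) * (D.t (cs.simple i) - (T 1 - T (-1) : A) • (1 : H)) = 1 := by
    rw [mul_sub, D.t_mul_down i (cs.simple i) (by simp), mul_smul_comm, mul_one,
      simple_mul_simple_self, D.t_one]
    abel
  have h3 : bar (D.t (cs.simple i)) = D.t (cs.simple i) - (T 1 - T (-1) : A) • (1 : H) := by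
    calc bar (D.t (cs.simple i)) = bar (D.t (cs.simple i)) *
          (D.t (cs.simple i) * (D.t (cs.simple i) - (T 1 - T (-1) : A) • (1 : H))) := by
          rw [h2, mul_one]
      _ = _ := by rw [← mul_assoc, h1, one_mul]
  rw [Hecke.c, map_add, h3, bar_smul, invert_T, map_one, sub_smul]
  simp only [neg_neg]
  abel

namespace HeckeKL

variable (D : HeckeKL cs H)

lemma p_diag (w : W) : D.t.repr (D.Cb w) w = 1 := by rw [Hecke.t_repr]; exact D.C_diag w

lemma p_off {y w : W} (h : y ≠ w) : DegLE (D.t.repr (D.Cb w) y) (-1) := by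
  rw [Hecke.t_repr]; exact D.C_off y w h

lemma p_supp {y w : W} (h : D.t.repr (D.Cb w) y ≠ 0) : BruhatLE cs y w :=
  D.C_supp y w (fun h1 => h ((D.t_repr_eq_zero_iff _ _).2 h1))

lemma bar_c' (i : B) : D.bar (D.c i) = D.c i := D.toHecke.bar_c D.bar D.bar_smul D.bar_T i

lemma Crepr_bar (h : H) (z : W) : D.Cb.repr (D.bar h) z = invert (D.Cb.repr h z) := by
  classical
  rw [← D.Cb.linearCombination_repr h]
  generalize D.Cb.repr h = c
  induction c using Finsupp.induction_linear with
  | zero => simp
  | add f g hf hg => simp only [map_add, Finsupp.add_apply, hf, hg]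
  | single w a =>
    simp only [Finsupp.linearCombination_single, D.bar_smul, D.C_bar, map_smul,
      Module.Basis.repr_self, Finsupp.smul_apply, Finsupp.single_apply, smul_eq_mul]
    split_ifs <;> simp

lemma Crepr_deg (h : H) (hh : ∀ y, DegLE (D.t.repr h y) (-1)) (z : W) :
    DegLE (D.Cb.repr h z) (-1) := by
  classical
  obtain ⟨n, hn⟩ := exists_degLE_finsupp (D.Cb.repr h)
  have key : ∀ m : ℕ, (∀ y, DegLE (D.Cb.repr h y) ((m : ℤ) - 1)) →
      ∀ y, DegLE (D.Cb.repr h y) (-1) := by
    intro m
    induction m with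
    | zero => intro h1 y; simpa using h1 y
    | succ m ih =>
      intro h1
      apply ih
      intro y
      have h2 : ∀ y, DegLE (D.Cb.repr h y) m := fun y => by simpa using h1 y
      apply (h2 y).pred
      have h3 := hh y m (by omega)
      conv_lhs at h3 => rw [← D.Cb.linearCombination_repr h]
      rw [Finsupp.linearCombination_apply, Finsupp.sum, map_sum, Finsupp.finsetSum_apply,
        AddMonoidAlgebra.coeff_sum, Finsupp.finsetSum_apply, Finset.sum_eq_single y] at h3
      · rwa [map_smul, Finsupp.smul_apply, p_diag, smul_eq_mul, mul_one] at h3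
      · intro w _ hw
        rw [map_smul, Finsupp.smul_apply, smul_eq_mul]
        exact ((h2 w).mul (D.p_off hw.symm)) m (by omega)
      · intro hy
        rw [Finsupp.notMem_support_iff.1 hy]; simp
  exact key (n + 1) (fun y => by simpa using hn y) z

lemma Crepr_len (h : H) (k : ℕ) (hh : ∀ y, k ≤ cs.length y → D.t.repr h y = 0) (z : W)
    (hz : k ≤ cs.length z) : D.Cb.repr h z = 0 := by
  refine tri_vanish D.t cs.length id Function.injective_id D.Cb D.p_diag ?_ (D.Cb.repr h) k ?_ z hz
  · intro w y hy
    exact (D.p_supp hy).eq_or_lt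
  · intro y hy
    rw [D.Cb.linearCombination_repr]
    exact hh y hy

/-- uniqueness of the Kazhdan-Lusztig basis -/
lemma eq_C (h : H) (w : W) (h1 : D.bar h = h) (h2 : ∀ y, DegLE (D.t.repr (h - D.t w) y) (-1)) :
    h = D.Cb w := by
  classical
  have h3 : ∀ y, DegLE (D.t.repr (h - D.Cb w) y) (-1) := by
    intro y
    have : h - D.Cb w = (h - D.t w) - (D.Cb w - D.t w) := by abel
    rw [this, map_sub, Finsupp.sub_apply]
    apply (h2 y).sub
    rw [map_sub, Finsupp.sub_apply, Module.Basis.repr_self, Finsupp.single_apply]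
    split_ifs with h4
    · rw [← h4, p_diag, sub_self]; exact DegLE.zero _
    · rw [sub_zero]; exact D.p_off (Ne.symm h4)
  rw [← sub_eq_zero]
  apply D.Cb.repr.injective
  ext1 z
  rw [map_zero, Finsupp.zero_apply]
  apply (D.Crepr_deg _ h3 z).eq_zero_of_invert
  rw [← Crepr_bar, map_sub, h1, D.C_bar]

/-- the key lemma -/
lemma key_lemma {ι : Type} (f : ι → W) (hf : Function.Injective f) (b : ι → H)
    (h1 : ∀ i, D.t.repr (b i) (f i) = 1)
    (h2 : ∀ i z, z ≠ f i → DegLE (D.t.repr (b i) z) (-1))
    (h3 : ∀ i z, D.t.repr (b i) z ≠ 0 → z = f i ∨ cs.length z < cs.length (f i))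
    (h4 : ∀ i, D.bar (b i) ∈ Submodule.span A (Set.range b)) :
    (∀ h ∈ Submodule.span A (Set.range b), ∀ z, z ∉ Set.range f → D.Cb.repr h z = 0) ∧
      ∀ i, D.Cb (f i) ∈ Submodule.span A (Set.range b) := by
  classical
  have d1 : ∀ i z, DegLE (D.Cb.repr (b i - D.Cb (f i)) z) (-1) := by
    intro i
    apply Crepr_deg
    intro y
    rw [map_sub, Finsupp.sub_apply]
    by_cases hy : y = f i
    · rw [hy, h1, p_diag, sub_self]; exact DegLE.zero _
    · exact (h2 i y hy).sub (D.p_off hy)
  have d2 : ∀ i z, cs.length (f i) ≤ cs.length z → D.Cb.repr (b i - D.Cb (f i)) z = 0 := by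
    intro i
    apply Crepr_len
    intro y hy'
    rw [map_sub, Finsupp.sub_apply]
    by_cases hy : y = f i
    · rw [hy, h1, p_diag, sub_self]
    · have e1 : D.t.repr (b i) y = 0 := by
        by_contra h
        rcases h3 i y h with h | h
        · exact hy h
        · omega
      have e2 : D.t.repr (D.Cb (f i)) y = 0 := by
        by_contra h
        rcases (D.p_supp h).eq_or_lt with h | h
        · exact hy h
        · omega
      rw [e1, e2, sub_self]
  have e1 : ∀ i, D.Cb.repr (b i) (f i) = 1 := by
    intro i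
    have := d2 i (f i) le_rfl
    rwa [map_sub, Finsupp.sub_apply, Module.Basis.repr_self, Finsupp.single_eq_same,
      sub_eq_zero] at this
  have e2 : ∀ i z, z ≠ f i → D.Cb.repr (b i - D.Cb (f i)) z = D.Cb.repr (b i) z := by
    intro i z hz
    rw [map_sub, Finsupp.sub_apply, Module.Basis.repr_self, Finsupp.single_eq_of_ne hz, sub_zero]
  have e3 : ∀ i z, D.Cb.repr (b i) z ≠ 0 → z = f i ∨ cs.length z < cs.length (f i) := by
    intro i z hz
    by_cases h : z = f i
    · exact Or.inl h
    · right
      by_contra h'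
      exact hz (by rw [← e2 i z h]; exact d2 i z (by omega))
  have main : ∀ (k : ℕ) (i : ι), cs.length (f i) = k → ∀ z, z ∉ Set.range f →
      D.Cb.repr (b i) z = 0 := by
    intro k
    induction k using Nat.strong_induction_on with
    | _ k ih =>
      intro i hi z hz
      have hzi : z ≠ f i := fun h => hz ⟨i, h.symm⟩
      have m1 : D.bar (b i) - b i ∈ Submodule.span A (Set.range b) :=
        Submodule.sub_mem _ (h4 i) (Submodule.subset_span ⟨i, rfl⟩)
      obtain ⟨c, hc⟩ := (Finsupp.mem_span_range_iff_exists_finsupp).1 m1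
      have hc' : Finsupp.linearCombination A b c = D.bar (b i) - b i := hc
      have m2 : ∀ j, k ≤ cs.length (f j) → c j = 0 := by
        apply tri_vanish D.Cb cs.length f hf b e1 e3 c k
        intro y hy
        rw [hc', map_sub, Finsupp.sub_apply, Crepr_bar]
        by_cases h : y = f i
        · rw [h, e1]; simp
        · have : D.Cb.repr (b i) y = 0 := by
            by_contra h'
            rcases e3 i y h' with h' | h'
            · exact h h'
            · omega
          rw [this]; simp
      have m3 : D.Cb.repr (D.bar (b i) - b i) z = 0 := by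
        rw [← hc, Finsupp.sum, map_sum, Finsupp.finsetSum_apply]
        apply Finset.sum_eq_zero
        intro j hj
        have hj' : cs.length (f j) < k := by
          by_contra h
          exact Finsupp.mem_support_iff.1 hj (m2 j (by omega))
        rw [map_smul, Finsupp.smul_apply, ih _ hj' j rfl z hz, smul_zero]
      rw [map_sub, Finsupp.sub_apply, Crepr_bar, sub_eq_zero] at m3
      exact (e2 i z hzi ▸ d1 i z).eq_zero_of_invert m3
  constructor
  · intro h hh z hz
    induction hh using Submodule.span_induction with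
    | mem x hx => obtain ⟨i, rfl⟩ := hx; exact main _ i rfl z hz
    | zero => simp
    | add x y _ _ hx hy => rw [map_add, Finsupp.add_apply, hx, hy, add_zero]
    | smul a x _ hx => rw [map_smul, Finsupp.smul_apply, hx, smul_zero]
  · have main2 : ∀ (k : ℕ) (i : ι), cs.length (f i) = k →
        D.Cb (f i) ∈ Submodule.span A (Set.range b) := by
      intro k
      induction k using Nat.strong_induction_on with
      | _ k ih =>
        intro i hi
        have m1 : b i - D.Cb (f i) ∈ Submodule.span A (Set.range b) := by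
          rw [← D.Cb.linearCombination_repr (b i - D.Cb (f i)), Finsupp.linearCombination_apply,
            Finsupp.sum]
          apply Submodule.sum_mem
          intro z hz
          have hz' := Finsupp.mem_support_iff.1 hz
          have hlt : cs.length z < k := by
            by_contra h
            exact hz' (d2 i z (by omega))
          have hzi : z ≠ f i := by rintro rfl; omega
          rw [e2 i z hzi] at hz'
          have : z ∈ Set.range f := by
            by_contra h
            exact hz' (main _ i rfl z h)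
          obtain ⟨j, rfl⟩ := this
          exact Submodule.smul_mem _ _ (ih _ hlt j rfl)
        have := Submodule.sub_mem _ (Submodule.subset_span (s := Set.range b) ⟨i, rfl⟩) m1
        simpa using this
    exact fun i => main2 _ i rfl

/-- `T_s C_w = v C_w` for a left descent `s` of `w` -/
lemma t_mul_C (i : B) (w : W) (hw : cs.length (cs.simple i * w) < cs.length w) :
    D.t (cs.simple i) * D.Cb w = (T 1 : A) • D.Cb w := by
  classical
  let ι := {w : W // cs.length (cs.simple i * w) < cs.length w}
  let b : ι → H := fun w => D.c i * D.t (cs.simple i * w.1)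
  have hb : ∀ w : ι, b w = D.t w.1 + (T (-1) : A) • D.t (cs.simple i * w.1) := by
    intro w
    have := D.c_mul_up i (cs.simple i * w.1) (by rw [simple_mul_simple_cancel_left]; exact w.2)
    rw [simple_mul_simple_cancel_left] at this
    exact this
  have hspan : ∀ h : H, D.c i * h ∈ Submodule.span A (Set.range b) := by
    intro h
    rw [← D.t.linearCombination_repr h]
    generalize D.t.repr h = c
    induction c using Finsupp.induction_linear with
    | zero => simp
    | add f g hf hg => rw [map_add, mul_add]; exact Submodule.add_mem _ hf hg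
    | single y a =>
      rw [Finsupp.linearCombination_single, mul_smul_comm]
      apply Submodule.smul_mem
      rcases lt_or_gt_of_ne (cs.length_simple_mul_ne y i) with h1 | h1
      · have : D.c i * D.t y = (T 1 : A) • b ⟨y, h1⟩ := by
          rw [hb, D.c_mul_down i y h1, smul_add, smul_smul, T_mul_T]
          simp [add_comm]
        rw [this]
        exact Submodule.smul_mem _ _ (Submodule.subset_span ⟨_, rfl⟩)
      · apply Submodule.subset_span
        refine ⟨⟨cs.simple i * y, by rwa [simple_mul_simple_cancel_left]⟩, ?_⟩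
        simp only [b, simple_mul_simple_cancel_left]
  have hne : ∀ w : ι, cs.simple i * w.1 ≠ w.1 := by
    intro w h
    have := w.2
    rw [h] at this
    omega
  have hk := (D.key_lemma (fun w : ι => w.1) Subtype.val_injective b ?_ ?_ ?_ ?_).2 ⟨w, hw⟩
  · have : ∀ x ∈ Submodule.span A (Set.range b), D.t (cs.simple i) * x = (T 1 : A) • x := by
      intro x hx
      induction hx using Submodule.span_induction with
      | mem x hx =>
        obtain ⟨y, rfl⟩ := hx
        simp only [b]
        rw [← mul_assoc, D.t_mul_c, smul_mul_assoc]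
      | zero => simp
      | add x y _ _ hx hy => rw [mul_add, hx, hy, smul_add]
      | smul a x _ hx => rw [mul_smul_comm, hx, smul_comm]
    exact this _ hk
  · intro w
    rw [hb]
    simp [Finsupp.single_eq_of_ne (hne w).symm]
  · intro w z hz
    rw [hb]
    simp only [map_add, map_smul, Module.Basis.repr_self, Finsupp.add_apply, Finsupp.smul_apply,
      Finsupp.single_eq_of_ne hz, zero_add, smul_eq_mul, Finsupp.single_apply]
    split_ifs
    · rw [mul_one]; exact DegLE.T _
    · rw [mul_zero]; exact DegLE.zero _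
  · intro w z hz
    rw [hb] at hz
    by_cases h1 : z = w.1
    · exact Or.inl h1
    · right
      by_cases h2 : z = cs.simple i * w.1
      · rw [h2]; exact w.2
      · exfalso
        apply hz
        simp [Finsupp.single_eq_of_ne h1, Finsupp.single_eq_of_ne h2]
  · intro w
    simp only [b]
    rw [map_mul, bar_c']
    exact hspan _

/-- coordinates of `T_a C_u` for `a` minimal in its coset and `u` in the parabolic subgroup -/
lemma repr_t_mul_C {J : Set B} {a u : W} (ha : IsMinC cs J a) (hu : InP cs J u) (z : W) :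
    D.t.repr (D.t a * D.Cb u) z = D.t.repr (D.Cb u) (a⁻¹ * z) := by
  classical
  conv_lhs => rw [← D.t.linearCombination_repr (D.Cb u), Finsupp.linearCombination_apply,
    Finsupp.sum, Finset.mul_sum, map_sum, Finsupp.finsetSum_apply]
  rw [Finset.sum_congr rfl (g := fun y => if y = a⁻¹ * z then D.t.repr (D.Cb u) y else 0)]
  · rw [Finset.sum_ite_eq']
    split_ifs with h
    · rfl
    · exact (Finsupp.notMem_support_iff.1 h).symm
  · intro y hy
    have hyP : InP cs J y := InP.of_bruhat (D.p_supp (Finsupp.mem_support_iff.1 hy)) hu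
    rw [mul_smul_comm, D.t_mul_of_length (ha.length_mul hyP), map_smul, Finsupp.smul_apply,
      Module.Basis.repr_self, Finsupp.single_apply, smul_eq_mul]
    have : a * y = z ↔ y = a⁻¹ * z := by
      constructor
      · rintro rfl; group
      · rintro rfl; group
    simp only [this]
    split_ifs <;> simp

lemma t_mul_C_deg {J : Set B} {a u : W} (ha : IsMinC cs J a) (hu : InP cs J u) (z : W) :
    DegLE (D.t.repr (D.t a * D.Cb u - D.t (a * u)) z) (-1) := by
  classical
  rw [map_sub, Finsupp.sub_apply, D.repr_t_mul_C ha hu, Module.Basis.repr_self,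
    Finsupp.single_apply]
  split_ifs with h
  · rw [← h, inv_mul_cancel_left, p_diag, sub_self]; exact DegLE.zero _
  · rw [sub_zero]
    apply D.p_off
    rintro rfl
    apply h
    group

/-- induction of left ideals spanned by Kazhdan-Lusztig elements -/
lemma induction_cells {J : Set B} (I : Set W) (hI : ∀ u ∈ I, InP cs J u)
    (hst : ∀ j ∈ J, ∀ u ∈ I, D.t (cs.simple j) * D.Cb u ∈ Submodule.span A (D.Cb '' I))
    {x y : W} (hx : x ∈ I) (hyx : D.LeftLE y x) : ∃ a, ∃ u ∈ I, IsMinC cs J a ∧ y = a * u := by
  classical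
  let ι := {p : W × W // IsMinC cs J p.1 ∧ p.2 ∈ I}
  let f : ι → W := fun p => p.1.1 * p.1.2
  let b : ι → H := fun p => D.t p.1.1 * D.Cb p.1.2
  have hf : Function.Injective f := by
    rintro ⟨⟨a, u⟩, ha, hu⟩ ⟨⟨a', u'⟩, ha', hu'⟩ h
    obtain ⟨rfl, rfl⟩ := IsMinC.unique ha ha' (hI _ hu) (hI _ hu') h
    rfl
  have hmem : ∀ a, IsMinC cs J a → ∀ x ∈ Submodule.span A (D.Cb '' I),
      D.t a * x ∈ Submodule.span A (Set.range b) := by
    intro a ha x hx
    induction hx using Submodule.span_induction with
    | mem x hx =>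
      obtain ⟨u, hu, rfl⟩ := hx
      exact Submodule.subset_span ⟨⟨(a, u), ha, hu⟩, rfl⟩
    | zero => simp
    | add x y _ _ hx hy => rw [mul_add]; exact Submodule.add_mem _ hx hy
    | smul c x _ hx => rw [mul_smul_comm]; exact Submodule.smul_mem _ _ hx
  have hstab : ∀ i, ∀ x ∈ Submodule.span A (Set.range b),
      D.t (cs.simple i) * x ∈ Submodule.span A (Set.range b) := by
    intro i x hx
    induction hx using Submodule.span_induction with
    | mem x hx =>
      obtain ⟨⟨⟨a, u⟩, ha, hu⟩, rfl⟩ := hx
      simp only [b]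
      have hC : D.Cb u ∈ Submodule.span A (D.Cb '' I) := Submodule.subset_span ⟨u, hu, rfl⟩
      rw [← mul_assoc]
      rcases lt_or_gt_of_ne (cs.length_simple_mul_ne a i) with h1 | h1
      · rw [D.t_mul_down i a h1, add_mul, smul_mul_assoc]
        exact Submodule.add_mem _ (hmem _ (IsMinC.down ha h1) _ hC)
          (Submodule.smul_mem _ _ (hmem _ ha _ hC))
      · rw [D.t_mul_up i a h1]
        rcases IsMinC.up ha h1 with h2 | ⟨j, hj, h2⟩
        · exact hmem _ h2 _ hC
        · rw [h2, ← D.t_mul_of_length (IsMinC.length_mul ha (InP.simple hj)), mul_assoc]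
          exact hmem _ ha _ (hst j hj u hu)
    | zero => simp
    | add x y _ _ hx hy => rw [mul_add]; exact Submodule.add_mem _ hx hy
    | smul c x _ hx => rw [mul_smul_comm]; exact Submodule.smul_mem _ _ hx
  have hk := D.key_lemma f hf b ?_ ?_ ?_ ?_
  · have : y ∈ Set.range f := by
      induction hyx using Relation.ReflTransGen.head_induction_on with
      | refl => exact ⟨⟨(1, x), IsMinC.one J, hx⟩, one_mul x⟩
      | head h1 _ ih =>
        obtain ⟨i, hi⟩ := h1
        obtain ⟨p, rfl⟩ := ih
        by_contra hn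
        exact hi (hk.1 _ (D.mul_mem_of_stable _ hstab _ (hk.2 p)) _ hn)
    obtain ⟨⟨⟨a, u⟩, ha, hu⟩, rfl⟩ := this
    exact ⟨a, u, hu, ha, rfl⟩
  · rintro ⟨⟨a, u⟩, ha, hu⟩
    simp only [b, f]
    rw [D.repr_t_mul_C ha (hI _ hu), inv_mul_cancel_left, p_diag]
  · rintro ⟨⟨a, u⟩, ha, hu⟩ z hz
    simp only [b, f] at hz ha hu ⊢
    rw [D.repr_t_mul_C ha (hI _ hu)]
    apply D.p_off
    rintro rfl
    apply hz
    group
  · rintro ⟨⟨a, u⟩, ha, hu⟩ z hz
    simp only [b, f] at hz ha hu ⊢
    rw [D.repr_t_mul_C ha (hI _ hu)] at hz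
    have h1 := D.p_supp hz
    have h2 := IsMinC.length_mul ha (InP.of_bruhat h1 (hI _ hu))
    rw [mul_inv_cancel_left] at h2
    rcases h1.eq_or_lt with h | h
    · left; rw [← h]; group
    · right; rw [h2, IsMinC.length_mul ha (hI _ hu)]; omega
  · rintro ⟨⟨a, u⟩, ha, hu⟩
    simp only [b]
    rw [map_mul, D.C_bar]
    apply D.mul_mem_of_stable _ hstab
    exact Submodule.subset_span ⟨⟨(1, u), IsMinC.one J, hu⟩, by simp [b, D.t_one]⟩

lemma isLambda_dem {ω : List B} (hω : cs.IsReduced ω) (y : W) :
    D.IsLambda (cs.wordProd ω) y (dem cs ω y) := by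
  unfold IsLambda
  rw [D.T_word hω]
  exact ⟨D.dem_ne_zero ω y, fun z hz => D.dem_bruhat ω y z hz⟩

end HeckeKL

end Pool.Agent.Lib.MP_8cdcda_al
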